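import Pool.Agent.Lib.MP_666dc0_nt.WL.Defs

/-!
# WL, Base: further definitions

`Ohat F` the integral finite adeles, `K0 D` the stabiliser of `Ô^n` in `G(𝔸_f)`, `lat g` the
lattice `F^n ∩ g Ô^n`, `qf` the bilinear form, `pairT` the pairings with the tensors.
-/

open NumberField IsDedekindDomain
open scoped NumberField

namespace Pool.Agent.Lib.MP_666dc0_nt.WL

section
variable (F : Type) [Field F] [NumberField F]

/-- The ring `Ô` of integral finite adeles. -/
def Ohat : Subring (FiniteAdeleRing (𝓞 F) F) where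
  carrier := {a | ∀ v : HeightOneSpectrum (𝓞 F), a v ∈ v.adicCompletionIntegers F}
  mul_mem' ha hb v := mul_mem (ha v) (hb v)
  one_mem' _ := one_mem _
  add_mem' ha hb v := add_mem (ha v) (hb v)
  zero_mem' _ := zero_mem _
  neg_mem' ha v := neg_mem (ha v)

/-- The vector of finite adeles of a vector over `F`. -/
noncomputable def av {F : Type} [Field F] [NumberField F] {n : ℕ} (x : Fin n → F) :
    Fin n → FiniteAdeleRing (𝓞 F) F :=
  fun k => algebraMap F (FiniteAdeleRing (𝓞 F) F) (x k)

end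

section
variable {F : Type} [Field F] {n : ℕ}

/-- The bilinear form `(x, y) ↦ xᵀ q y` over the `F`-algebra `R`. -/
def qf (D : Datum F n) {R : Type} [CommRing R] (φ : F →+* R) (x y : Fin n → R) : R :=
  x ⬝ᵥ (D.q.map φ).mulVec y

/-- The pairing of the tensor `w s` with `y 0 ⊗ y 1 ⊗ …` given by the form `q`. -/
def pairT (D : Datum F n) {R : Type} [CommRing R] (φ : F →+* R) (s : Fin D.m)
    (y : Fin (D.deg s) → Fin n → R) : R :=
  ∑ J : Fin (D.deg s) → Fin n, φ (D.w s J) * ∏ t, (D.q.map φ).mulVec (y t) (J t)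

end

variable {F : Type} [Field F] [NumberField F] {n : ℕ} {D : Datum F n}

/-- The matrix of `g ∈ G(𝔸_f)`. -/
abbrev mat (g : D.Ad) : Matrix (Fin n) (Fin n) (FiniteAdeleRing (𝓞 F) F) := g.1.1

theorem mat_mul (g h : D.Ad) : mat (g * h) = mat g * mat h := rfl

theorem mat_one : mat (1 : D.Ad) = 1 := rfl

theorem mat_inv_mul (g : D.Ad) : mat g⁻¹ * mat g = 1 := by
  rw [← mat_mul, inv_mul_cancel, mat_one]

theorem mat_mul_inv (g : D.Ad) : mat g * mat g⁻¹ = 1 := by
  rw [← mat_mul, mul_inv_cancel, mat_one]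

theorem mat_toAd (γ : D.Rat) : mat (D.toAd γ) =
    γ.1.1.map (algebraMap F (FiniteAdeleRing (𝓞 F) F)) := rfl

/-- The stabiliser `K₀` of `Ô^n` in `G(𝔸_f)`. -/
def K0 (D : Datum F n) : Subgroup D.Ad where
  carrier := {g | (∀ i j, mat g i j ∈ Ohat F) ∧ ∀ i j, mat g⁻¹ i j ∈ Ohat F}
  one_mem' := by
    have h : ∀ i j, mat (1 : D.Ad) i j ∈ Ohat F := by
      intro i j
      rw [mat_one, Matrix.one_apply]
      split_ifs
      · exact one_mem _
      · exact zero_mem _
    exact ⟨h, by rw [inv_one]; exact h⟩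
  mul_mem' {a b} ha hb := by
    refine ⟨fun i j => ?_, fun i j => ?_⟩
    · rw [mat_mul, Matrix.mul_apply]
      exact sum_mem fun k _ => mul_mem (ha.1 i k) (hb.1 k j)
    · rw [mul_inv_rev, mat_mul, Matrix.mul_apply]
      exact sum_mem fun k _ => mul_mem (hb.2 i k) (ha.2 k j)
  inv_mem' {a} ha := ⟨ha.2, by rw [inv_inv]; exact ha.1⟩

/-- The lattice `F^n ∩ g Ô^n`. -/
def lat (g : D.Ad) : AddSubgroup (Fin n → F) where
  carrier := {x | ∀ i, (mat g⁻¹).mulVec (av x) i ∈ Ohat F}
  zero_mem' i := by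
    have : av (0 : Fin n → F) = 0 := by
      funext k
      simp [av]
    rw [this, Matrix.mulVec_zero]
    exact zero_mem _
  add_mem' {x y} hx hy i := by
    have : av (x + y) = av x + av y := by
      funext k
      simp [av]
    rw [this, Matrix.mulVec_add]
    exact add_mem (hx i) (hy i)
  neg_mem' {x} hx i := by
    have : av (-x) = -av x := by
      funext k
      simp [av]
    rw [this, Matrix.mulVec_neg]
    exact neg_mem (hx i)

/-- The number `n [F : ℚ]`. -/
noncomputable def rk (F : Type) [Field F] [NumberField F] (n : ℕ) : ℕ :=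
  n * Module.finrank ℚ F

/-- `b` is a family of generators of the lattice of `g`, bounded by `C` at all real places. -/
structure IsShort (g : D.Ad) (C : ℝ) (b : Fin (rk F n) → Fin n → F) : Prop where
  gen : AddSubgroup.closure (Set.range b) = lat g
  bound : ∀ (i : Fin (rk F n)) (k : Fin n) (τ : F →+* ℝ), |τ (b i k)| ≤ C

/-- The Gram matrix of a family of vectors. -/
def gram (D : Datum F n) {N : ℕ} (b : Fin N → Fin n → F) : Fin N → Fin N → F :=
  fun i j => qf D (RingHom.id F) (b i) (b j)

/-- The pairings of a family of vectors with the tensors. -/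
def tens (D : Datum F n) {N : ℕ} (b : Fin N → Fin n → F) (s : Fin D.m) :
    (Fin (D.deg s) → Fin N) → F :=
  fun I => pairT D (RingHom.id F) s fun t => b (I t)

end Pool.Agent.Lib.MP_666dc0_nt.WL
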