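import Pool.Agent.Lib.MP_666dc0_nt.WL.K2

/-!
# WL, K3: the ultrametric Stone-Weierstrass theorem for indicator functions of clopen sets
-/

open Polynomial

namespace Pool.Agent.Lib.MP_666dc0_nt.WL

variable {ℓ : ℕ} [Fact ℓ.Prime] {Z : Type}

/-- `P` is an algebra of functions: it contains the constants and is closed under sums and
products. -/
structure IsFunAlg (P : Set (Z → PadicAlgCl ℓ)) : Prop where
  const : ∀ c : PadicAlgCl ℓ, (fun _ => c) ∈ P
  add : ∀ p ∈ P, ∀ q ∈ P, (fun z => p z + q z) ∈ P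
  mul : ∀ p ∈ P, ∀ q ∈ P, (fun z => p z * q z) ∈ P

/-- The indicator function of `A` is uniformly approximated by elements of `P`. -/
def Approx (P : Set (Z → PadicAlgCl ℓ)) (A : Set Z) : Prop :=
  ∀ η : ℝ, 0 < η → ∃ p ∈ P, (∀ z ∈ A, ‖p z - 1‖ ≤ η) ∧ ∀ z, z ∉ A → ‖p z‖ ≤ η

/-- Proof: `Polynomial.induction_on'` or `Polynomial.induction_on`. -/
theorem IsFunAlg.comp {P : Set (Z → PadicAlgCl ℓ)} (hP : IsFunAlg P) {p : Z → PadicAlgCl ℓ}
    (hp : p ∈ P) (f : (PadicAlgCl ℓ)[X]) : (fun z => f.eval (p z)) ∈ P := by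
  induction f using Polynomial.induction_on' with
  | add f g hf hg =>
    have h := hP.add _ hf _ hg
    simpa only [Polynomial.eval_add] using h
  | monomial n a =>
    have h : ∀ n : ℕ, (fun z => a * p z ^ n) ∈ P := by
      intro n
      induction n with
      | zero =>
        have h1 := hP.const a
        simpa only [pow_zero, mul_one] using h1
      | succ n ih =>
        have h1 := hP.mul _ ih _ hp
        have h2 : (fun z => a * p z ^ (n + 1)) = (fun z => a * p z ^ n * p z) := by
          funext z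
          rw [pow_succ, mul_assoc]
        rw [h2]
        exact h1
    have h3 := h n
    simpa only [Polynomial.eval_monomial] using h3

/-- Proof: `1 - p` (`= 1 + (-1) p`). -/
theorem Approx.compl {P : Set (Z → PadicAlgCl ℓ)} (hP : IsFunAlg P) {A : Set Z}
    (hA : Approx P A) : Approx P Aᶜ := by
  intro η hη
  obtain ⟨p, hp, h1, h2⟩ := hA η hη
  refine ⟨fun z => 1 + (-1) * p z, hP.add _ (hP.const 1) _ (hP.mul _ (hP.const (-1)) _ hp), ?_, ?_⟩
  · intro z hz
    have h3 : (1 + (-1) * p z) - 1 = -(p z) := by ring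
    rw [h3, norm_neg]
    exact h2 z hz
  · intro z hz
    have hz' : z ∈ A := by
      by_contra h
      exact hz h
    have h3 : (1 + (-1) * p z) = -(p z - 1) := by ring
    show ‖1 + (-1) * p z‖ ≤ η
    rw [h3, norm_neg]
    exact h1 z hz'

/-- Proof: for `η' = min η 1` the product `p q`: on `A ∩ B`, `p q - 1 = p (q - 1) + (p - 1)` with
`‖p‖ ≤ 1`; outside, one factor has norm `≤ η'`, the other `≤ 1` (each of them is within `1` of `0` or
`1`, so has norm `≤ 1`). -/
theorem Approx.inter {P : Set (Z → PadicAlgCl ℓ)} (hP : IsFunAlg P) {A B : Set Z}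
    (hA : Approx P A) (hB : Approx P B) : Approx P (A ∩ B) := by
  intro η hη
  have hη' : 0 < min η 1 := lt_min hη one_pos
  obtain ⟨p, hp, p1, p2⟩ := hA (min η 1) hη'
  obtain ⟨q, hq, q1, q2⟩ := hB (min η 1) hη'
  have small : ∀ (C : Set Z) (r : Z → PadicAlgCl ℓ), (∀ z ∈ C, ‖r z - 1‖ ≤ min η 1) →
      (∀ z, z ∉ C → ‖r z‖ ≤ min η 1) → ∀ z, ‖r z‖ ≤ 1 := by
    intro C r r1 r2 z
    by_cases hz : z ∈ C
    · have h1 : r z = (r z - 1) + 1 := by ring
      rw [h1]
      refine (IsUltrametricDist.norm_add_le_max _ _).trans ?_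
      rw [norm_one]
      exact max_le ((r1 z hz).trans (min_le_right _ _)) le_rfl
    · exact (r2 z hz).trans (min_le_right _ _)
  have hps := small A p p1 p2
  have hqs := small B q q1 q2
  refine ⟨fun z => p z * q z, hP.mul _ hp _ hq, ?_, ?_⟩
  · intro z hz
    have h1 : p z * q z - 1 = p z * (q z - 1) + (p z - 1) := by ring
    rw [h1]
    refine (IsUltrametricDist.norm_add_le_max _ _).trans (max_le ?_ ?_)
    · rw [norm_mul]
      calc ‖p z‖ * ‖q z - 1‖ ≤ 1 * min η 1 :=
            mul_le_mul (hps z) (q1 z hz.2) (norm_nonneg _) zero_le_one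
        _ ≤ η := by rw [one_mul]; exact min_le_left _ _
    · exact (p1 z hz.1).trans (min_le_left _ _)
  · intro z hz
    rw [norm_mul]
    by_cases hzA : z ∈ A
    · have hzB : z ∉ B := fun h => hz ⟨hzA, h⟩
      calc ‖p z‖ * ‖q z‖ ≤ 1 * min η 1 :=
            mul_le_mul (hps z) (q2 z hzB) (norm_nonneg _) zero_le_one
        _ ≤ η := by rw [one_mul]; exact min_le_left _ _
    · calc ‖p z‖ * ‖q z‖ ≤ min η 1 * 1 :=
            mul_le_mul (p2 z hzA) (hqs z) (norm_nonneg _) hη'.le
        _ ≤ η := by rw [mul_one]; exact min_le_left _ _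

/-- Proof: the constant `1`. -/
theorem approx_univ {P : Set (Z → PadicAlgCl ℓ)} (hP : IsFunAlg P) : Approx P Set.univ := by
  intro η hη
  refine ⟨fun _ => 1, hP.const 1, ?_, ?_⟩
  · intro z _
    rw [sub_self, norm_zero]
    exact hη.le
  · intro z hz
    exact absurd (Set.mem_univ z) hz

/-- Two points are separated by an approximable open set.
Proof: `p ∈ P` with `p z ≠ p z'`; replace `p` by `p - p z` (`z` fixed), so `p z = 0`, and let
`r = ‖p z'‖ > 0`, `A = {x | ‖p x‖ < r}`, an open set. `S = p '' univ` is compact, and the composition of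
`p` with the polynomials of `exists_poly_ball` shows `Approx P A` (`IsFunAlg.comp`). -/
theorem exists_separating [TopologicalSpace Z] [CompactSpace Z] {P : Set (Z → PadicAlgCl ℓ)}
    (hP : IsFunAlg P) (hcont : ∀ p ∈ P, Continuous p)
    (hsep : ∀ z z' : Z, z ≠ z' → ∃ p ∈ P, p z ≠ p z') {z z' : Z} (h : z ≠ z') :
    ∃ A : Set Z, IsClopen A ∧ z ∈ A ∧ z' ∉ A ∧ Approx P A := by
  obtain ⟨p, hp, hne⟩ := hsep z z' h
  have hp0 : (fun x => p x + -(p z)) ∈ P := hP.add _ hp _ (hP.const _)
  have hc0 : Continuous (fun x => p x + -(p z)) := hcont _ hp0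
  have hr : 0 < ‖p z' + -(p z)‖ := by
    rw [norm_pos_iff, ← sub_eq_add_neg, sub_ne_zero]
    exact fun h => hne h.symm
  have hA : {x | ‖p x + -(p z)‖ < ‖p z' + -(p z)‖} =
      (fun x => p x + -(p z)) ⁻¹' (Metric.ball 0 ‖p z' + -(p z)‖) := by
    ext x
    rw [Set.mem_preimage, mem_ball_zero_iff]
    rfl
  refine ⟨{x | ‖p x + -(p z)‖ < ‖p z' + -(p z)‖}, ?_, ?_, ?_, ?_⟩
  · rw [hA]
    exact (IsUltrametricDist.isClopen_ball (0 : PadicAlgCl ℓ) _).preimage hc0
  · show ‖p z + -(p z)‖ < ‖p z' + -(p z)‖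
    rw [add_neg_cancel, norm_zero]
    exact hr
  · intro h1
    exact lt_irrefl _ (show ‖p z' + -(p z)‖ < ‖p z' + -(p z)‖ from h1)
  · intro η hη
    have hS : IsCompact (Set.range (fun x => p x + -(p z))) := isCompact_range hc0
    obtain ⟨f, f1, f2⟩ := exists_poly_ball hS hr hη
    refine ⟨_, hP.comp hp0 f, ?_, ?_⟩
    · intro x hx
      exact f1 _ (Set.mem_range_self x) hx
    · intro x hx
      exact f2 _ (Set.mem_range_self x) (not_lt.1 hx)

/-- Kaplansky's theorem for indicator functions: every clopen set is approximable.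
Proof: let `A` be clopen. For `z ∈ A` and every `z' ∉ A` let `B_{z'}` be as in `exists_separating`; the
open sets `B_{z'}ᶜ` cover the compact set `Aᶜ`; a finite intersection `B` of the `B_{z'}` satisfies
`z ∈ B ⊆ A`, is open and approximable (`Approx.inter`, `approx_univ`; `Finset.induction`). The open
sets `B = B(z)` cover the compact set `A`; `A` is the union of finitely many of them, and finite
unions of approximable sets are approximable (`Approx.compl`, `Approx.inter`). -/
theorem approx_of_isClopen [TopologicalSpace Z] [CompactSpace Z] {P : Set (Z → PadicAlgCl ℓ)}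
    (hP : IsFunAlg P) (hcont : ∀ p ∈ P, Continuous p)
    (hsep : ∀ z z' : Z, z ≠ z' → ∃ p ∈ P, p z ≠ p z') {A : Set Z} (hA : IsClopen A) :
    Approx P A := by
  classical
  -- finite intersections
  have hinter : ∀ (I : Finset Z) (B : Z → Set Z), (∀ i ∈ I, Approx P (B i)) →
      Approx P (⋂ i ∈ I, B i) := by
    intro I B
    induction I using Finset.induction_on with
    | empty =>
      intro _
      simpa using approx_univ hP
    | insert a s _ ih =>
      intro hB
      rw [Finset.set_biInter_insert]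
      exact Approx.inter hP (hB a (Finset.mem_insert_self a s))
        (ih fun i hi => hB i (Finset.mem_insert_of_mem hi))
  have hunion : ∀ (I : Finset Z) (B : Z → Set Z), (∀ i ∈ I, Approx P (B i)) →
      Approx P (⋃ i ∈ I, B i) := by
    intro I B hB
    have h1 := Approx.compl hP (hinter I (fun i => (B i)ᶜ) fun i hi => Approx.compl hP (hB i hi))
    have h2 : (⋂ i ∈ I, (B i)ᶜ)ᶜ = ⋃ i ∈ I, B i := by
      simp only [Set.compl_iInter, compl_compl]
    rwa [h2] at h1
  have step : ∀ z ∈ A, ∃ B : Set Z, IsOpen B ∧ z ∈ B ∧ B ⊆ A ∧ Approx P B := by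
    intro z hz
    have h1 : ∀ z' : Z, z' ∈ Aᶜ → ∃ C : Set Z, IsClopen C ∧ z ∈ C ∧ z' ∉ C ∧ Approx P C := by
      intro z' hz'
      apply exists_separating hP hcont hsep
      rintro rfl
      exact hz' hz
    choose! C C1 C2 C3 C4 using h1
    have hcomp : IsCompact Aᶜ := hA.compl.isClosed.isCompact
    obtain ⟨t, ht1, ht2⟩ := hcomp.elim_nhds_subcover (fun z' => (C z')ᶜ) (fun z' hz' =>
      (C1 z' hz').compl.isOpen.mem_nhds (C3 z' hz'))
    refine ⟨⋂ i ∈ t, C i, ?_, ?_, ?_, ?_⟩
    · exact isOpen_biInter_finset fun i hi => (C1 i (ht1 i hi)).isOpen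
    · simp only [Set.mem_iInter]
      exact fun i hi => C2 i (ht1 i hi)
    · intro x hx
      by_contra hxA
      obtain ⟨i, hi, hxi⟩ := Set.mem_iUnion₂.1 (ht2 hxA)
      simp only [Set.mem_iInter] at hx
      exact hxi (hx i hi)
    · exact hinter t C fun i hi => C4 i (ht1 i hi)
  choose! B B1 B2 B3 B4 using step
  obtain ⟨t, ht1, ht2⟩ := hA.isClosed.isCompact.elim_nhds_subcover B (fun z hz =>
    (B1 z hz).mem_nhds (B2 z hz))
  have hEq : A = ⋃ i ∈ t, B i := by
    apply Set.Subset.antisymm ht2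
    exact Set.iUnion₂_subset fun i hi => B3 i (ht1 i hi)
  rw [hEq]
  exact hunion t B fun i hi => B4 i (ht1 i hi)

end Pool.Agent.Lib.MP_666dc0_nt.WL
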