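import Pool.Agent.Lib.MP_666dc0_nt.WL.Base

open NumberField IsDedekindDomain
open scoped NumberField

namespace Pool.Agent.Lib.MP_666dc0_nt.WL

/-!
# WL, D1defs: the `ℓ`-adic specialisation of adelic points
-/

/-- For every embedding `τ : F → ℂ` an extension of `τ` to a ring homomorphism from the finite adeles
to `ℂ`, which factors through the completion at a place above `ℓ` and which is continuous for the
`ℓ`-adic topology on `ℂ ≃ ℚ̄_ℓ` given by `ι`. -/
structure HatData (F : Type) [Field F] [NumberField F] (ℓ : ℕ) [Fact ℓ.Prime]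
    (ι : ℂ ≃+* PadicAlgCl ℓ) where
  s : (F →+* ℂ) → FiniteAdeleRing (𝓞 F) F →+* ℂ
  comp : ∀ τ, (s τ).comp (algebraMap F (FiniteAdeleRing (𝓞 F) F)) = τ
  cont : ∀ τ, Continuous fun a => ι (s τ a)
  place : ∀ τ, ∃ v : HeightOneSpectrum (𝓞 F), (ℓ : 𝓞 F) ∈ v.asIdeal ∧
    ∀ a b : FiniteAdeleRing (𝓞 F) F, a v = b v → s τ a = s τ b
  surj : ∀ v : HeightOneSpectrum (𝓞 F), (ℓ : 𝓞 F) ∈ v.asIdeal →
    ∃ τ, ∀ a b : FiniteAdeleRing (𝓞 F) F, s τ a = s τ b → a v = b v

variable {F : Type} [Field F] [NumberField F] {n : ℕ} {D : Datum F n}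
  {ℓ : ℕ} [Fact ℓ.Prime] {ι : ℂ ≃+* PadicAlgCl ℓ}

/-- Functoriality of the group of points, with a free target structure map. -/
def Datum.mapPts (D : Datum F n) {R S : Type} [CommRing R] [CommRing S] (φ : F →+* R)
    (ψ : F →+* S) (f : R →+* S) (h : f.comp φ = ψ) : D.points φ →* D.points ψ where
  toFun g := ⟨Matrix.GeneralLinearGroup.map f g.1, h ▸ (D.mapPoints φ f g).2⟩
  map_one' := Subtype.ext (by simp)
  map_mul' g h := Subtype.ext (by simp)

/-- The `ℓ`-adic specialisation `G(𝔸_f) → ∏_τ G_τ(ℂ)`. -/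
noncomputable def HatData.hat (H : HatData F ℓ ι) (D : Datum F n) : D.Ad →* D.Cpx :=
  MonoidHom.pi fun τ => D.mapPts _ τ (H.s τ) (H.comp τ)

theorem HatData.coord_hat (H : HatData F ℓ ι) (g : D.Ad) (τ : F →+* ℂ) (i j : Fin n) :
    coord D τ i j (H.hat D g) = H.s τ (mat g i j) := rfl

/-- The evaluation of a function `f` (a form) at `y₀`: an `ℓ`-adic function on `G(𝔸_f)`. -/
noncomputable def HatData.ev (H : HatData F ℓ ι) (y₀ : D.Cpx) (f : D.Ad → D.Cpx → ℂ) :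
    D.Ad → PadicAlgCl ℓ :=
  fun g => ι (f g (y₀ * (H.hat D g)⁻¹))

/-- The Hecke operator on `ℓ`-adic functions. -/
noncomputable def Hecke.actK {U : Subgroup D.Ad} {v : HeightOneSpectrum (𝓞 F)} (h : Hecke U v)
    (φ : D.Ad → PadicAlgCl ℓ) : D.Ad → PadicAlgCl ℓ :=
  fun g => h.1.sum fun c a => (a : PadicAlgCl ℓ) * φ (g * (Quotient.out c : locSub D v))

end Pool.Agent.Lib.MP_666dc0_nt.WL
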