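import Pool.Agent.Lib.MP_666dc0_nt.WL.C5a
import Pool.Agent.Lib.MP_666dc0_nt.WL.D1defs
import Pool.Agent.Lib.MP_666dc0_nt.Mg.G003

open NumberField IsDedekindDomain
open scoped NumberField

namespace Pool.Agent.Lib.MP_666dc0_nt.WL

/-!
# WL, D1: properties of the specialisation `hat`
-/

variable {F : Type} [Field F] [NumberField F] {n : ℕ} {D : Datum F n}
  {ℓ : ℕ} [Fact ℓ.Prime] {ι : ℂ ≃+* PadicAlgCl ℓ}

/-- Elements of `G(F ⊗ ℂ)` with the same coordinates are equal. -/
theorem Cpx_ext {x y : D.Cpx} (h : ∀ τ i j, coord D τ i j x = coord D τ i j y) : x = y := by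
  funext τ
  apply Subtype.ext
  apply Units.ext
  ext i j
  exact h τ i j

/-- Proof: `Cpx_ext`, `coord_hat`, `mat_toAd`, `HatData.comp`. -/
theorem hat_toAd (H : HatData F ℓ ι) (γ : D.Rat) : H.hat D (D.toAd γ) = D.toCpx γ := by
  apply Cpx_ext
  intro τ i j
  rw [H.coord_hat, mat_toAd, Matrix.map_apply]
  have h1 : H.s τ (algebraMap F (FiniteAdeleRing (𝓞 F) F) (γ.1.1 i j)) =
      (H.s τ).comp (algebraMap F (FiniteAdeleRing (𝓞 F) F)) (γ.1.1 i j) := rfl
  rw [h1, H.comp τ]
  rfl

private theorem d1_coord_one (H : HatData F ℓ ι) (τ : F →+* ℂ) (i j : Fin n) :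
    coord D τ i j (1 : D.Cpx) = H.s τ (mat (1 : D.Ad) i j) := by
  rw [← H.coord_hat, map_one]

/-- Proof: for each `τ` let `v | ℓ` be as in `HatData.place`. The entries of `g` and of `1` have the
same component at `v`, so `H.s τ` maps them to the same elements. -/
theorem hat_eq_one (H : HatData F ℓ ι) {g : D.Ad}
    (hg : ∀ v : HeightOneSpectrum (𝓞 F), (ℓ : 𝓞 F) ∈ v.asIdeal → TrivialAt v g) :
    H.hat D g = 1 := by
  apply Cpx_ext
  intro τ i j
  rw [d1_coord_one H, H.coord_hat]
  obtain ⟨v, hv, hs⟩ := H.place τ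
  apply hs
  have h1 := congrFun (congrFun (hg v hv) i) j
  have h2 := congrFun (congrFun (TrivialAt.one (D := D) v) i) j
  exact h1.trans h2.symm

/-- Proof: `HatData.surj` shows that all components of the entries of `g` above `ℓ` are those of the
unit matrix; conclude by `eq_one_of_trivialAt`. -/
theorem hat_injective (H : HatData F ℓ ι) {g : D.Ad}
    (hg : ∀ v : HeightOneSpectrum (𝓞 F), (ℓ : 𝓞 F) ∉ v.asIdeal → TrivialAt v g)
    (h1 : H.hat D g = 1) : g = 1 := by
  apply eq_one_of_trivialAt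
  intro v
  by_cases hv : (ℓ : 𝓞 F) ∈ v.asIdeal
  · obtain ⟨τ, hτ⟩ := H.surj v hv
    have h2 : ∀ i j, (mat g i j) v = (mat (1 : D.Ad) i j) v := by
      intro i j
      apply hτ
      rw [← H.coord_hat, h1, d1_coord_one H]
    have h3 := TrivialAt.one (D := D) v
    unfold TrivialAt at h3 ⊢
    rw [← h3]
    apply Matrix.ext
    intro i j
    exact h2 i j
  · exact hg v hv

/-- Proof: `Algebra.adjoin_induction`. For a coordinate,
`ι ((y * (hat g)⁻¹ * z)_{ij}) = ∑ ι (y_{ik}) * ι (s τ (mat g⁻¹ k l)) * ι (z_{lj})`, continuous by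
`HatData.cont` and since the entries of `g⁻¹` are continuous in `g` (`isEmbedding_entries` of K0a,
or directly). Constants, sums and products are clear. -/
theorem continuous_eval (H : HatData F ℓ ι) {p : D.Cpx → ℂ} (hp : p ∈ polyFun D)
    (y z : D.Cpx) : Continuous fun g : D.Ad => ι (p (y * (H.hat D g)⁻¹ * z)) := by
  have hmat : ∀ k l : Fin n, Continuous fun g : D.Ad => mat g⁻¹ k l := by
    intro k l
    have h1 := (isEmbedding_entries (D := D)).continuous
    exact (continuous_apply l).comp ((continuous_apply k).comp (continuous_snd.comp h1))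
  unfold polyFun at hp
  induction hp using Algebra.adjoin_induction with
  | mem p hp =>
    obtain ⟨τ, i, j, rfl⟩ := hp
    have h1 : ∀ g : D.Ad, coord D τ i j (y * (H.hat D g)⁻¹ * z) =
        ∑ l, (∑ k, (y τ).1.1 i k * H.s τ (mat g⁻¹ k l)) * (z τ).1.1 l j := by
      intro g
      have h2 : coord D τ i j (y * (H.hat D g)⁻¹ * z) =
          ((y τ).1.1 * ((H.hat D g)⁻¹ τ).1.1 * (z τ).1.1) i j := rfl
      rw [h2, Matrix.mul_apply]
      refine Finset.sum_congr rfl fun l _ => ?_
      rw [Matrix.mul_apply]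
      congr 1
    have h3 : (fun g : D.Ad => ι (coord D τ i j (y * (H.hat D g)⁻¹ * z))) = fun g : D.Ad =>
        ∑ l, (∑ k, ι ((y τ).1.1 i k) * ι (H.s τ (mat g⁻¹ k l))) * ι ((z τ).1.1 l j) := by
      funext g
      rw [h1 g, map_sum]
      refine Finset.sum_congr rfl fun l _ => ?_
      rw [map_mul, map_sum]
      congr 1
      refine Finset.sum_congr rfl fun k _ => ?_
      rw [map_mul]
    rw [h3]
    refine continuous_finsetSum _ fun l _ => ?_
    refine Continuous.mul ?_ continuous_const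
    refine continuous_finsetSum _ fun k _ => ?_
    exact continuous_const.mul ((H.cont τ).comp (hmat k l))
  | algebraMap r =>
    have h3 : (fun g : D.Ad => ι ((algebraMap ℂ (D.Cpx → ℂ)) r (y * (H.hat D g)⁻¹ * z))) =
        fun _ : D.Ad => ι r := rfl
    rw [h3]
    exact continuous_const
  | add p q _ _ hp hq =>
    have h3 : (fun g : D.Ad => ι ((p + q) (y * (H.hat D g)⁻¹ * z))) = fun g : D.Ad =>
        ι (p (y * (H.hat D g)⁻¹ * z)) + ι (q (y * (H.hat D g)⁻¹ * z)) := by
      funext g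
      rw [Pi.add_apply, map_add]
    rw [h3]
    exact hp.add hq
  | mul p q _ _ hp hq =>
    have h3 : (fun g : D.Ad => ι ((p * q) (y * (H.hat D g)⁻¹ * z))) = fun g : D.Ad =>
        ι (p (y * (H.hat D g)⁻¹ * z)) * ι (q (y * (H.hat D g)⁻¹ * z)) := by
      funext g
      rw [Pi.mul_apply, map_mul]
    rw [h3]
    exact hp.mul hq

end Pool.Agent.Lib.MP_666dc0_nt.WL
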