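import Pool.Agent.Lib.MP_666dc0_nt.WL.Defs

open NumberField IsDedekindDomain
open scoped NumberField

namespace Pool.Agent.Lib.MP_666dc0_nt.WL

/-!
# WL, C5a: the subgroups of places, levels
-/

variable {F : Type} [Field F] [NumberField F] {n : ℕ} {D : Datum F n}

/-- An element of `G(𝔸_f)` is determined by its components. Proof: `Subtype.ext`, `Units.ext`, then
entrywise `RestrictedProduct.ext` (a finite adele is a function). -/
theorem Ad_ext {g h : D.Ad} (H : ∀ v : HeightOneSpectrum (𝓞 F),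
    Matrix.GeneralLinearGroup.map (evalAt F v) g.1 = Matrix.GeneralLinearGroup.map (evalAt F v) h.1) :
    g = h := by
  refine Subtype.ext (Units.ext (Matrix.ext fun i j => ?_))
  refine FiniteAdeleRing.ext _ fun v => ?_
  have h1 := congrArg (fun M : GL (Fin n) (v.adicCompletion F) =>
    (M : Matrix (Fin n) (Fin n) (v.adicCompletion F)) i j) (H v)
  exact h1

/-- Elements with disjoint supports commute. Proof: `Ad_ext` and `trivialAt_iff`: at every place one
of the two components is `1`. -/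
theorem mul_comm_of_disjoint {g h : D.Ad}
    (H : ∀ v : HeightOneSpectrum (𝓞 F), TrivialAt v g ∨ TrivialAt v h) : g * h = h * g := by
  refine Ad_ext fun v => ?_
  rw [Subgroup.coe_mul, Subgroup.coe_mul, map_mul, map_mul]
  rcases H v with h1 | h1
  · rw [(trivialAt_iff v g).1 h1, one_mul, mul_one]
  · rw [(trivialAt_iff v h).1 h1, one_mul, mul_one]

/-- Proof: `trivialAt_iff`, multiplicativity. -/
theorem TrivialAt.mul {v : HeightOneSpectrum (𝓞 F)} {g h : D.Ad} (hg : TrivialAt v g)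
    (hh : TrivialAt v h) : TrivialAt v (g * h) := by
  have h1 := (trivialAt_iff v g).1 hg
  have h2 := (trivialAt_iff v h).1 hh
  exact (trivialAt_iff v (g * h)).2 (by rw [Subgroup.coe_mul, map_mul, h1, h2, one_mul])

/-- Proof: `trivialAt_iff`, multiplicativity. -/
theorem TrivialAt.inv {v : HeightOneSpectrum (𝓞 F)} {g : D.Ad} (hg : TrivialAt v g) :
    TrivialAt v g⁻¹ := by
  have h1 := (trivialAt_iff v g).1 hg
  exact (trivialAt_iff v g⁻¹).2 (by rw [Subgroup.coe_inv, map_inv, h1, inv_one])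

/-- Proof: all components are `1` (`Ad_ext`). -/
theorem eq_one_of_trivialAt {g : D.Ad} (H : ∀ v : HeightOneSpectrum (𝓞 F), TrivialAt v g) :
    g = 1 := by
  refine Ad_ext fun v => ?_
  rw [(trivialAt_iff v g).1 (H v), (trivialAt_iff v 1).1 (TrivialAt.one v)]

/-- The conditions on a level `V` for the operators of the tame level `U`. -/
structure Good (S : Finset (HeightOneSpectrum (𝓞 F))) (U V : Subgroup D.Ad) : Prop where
  isOpen : IsOpen (V : Set D.Ad)
  isCompact : IsCompact (V : Set D.Ad)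
  le : U ≤ V
  split : ∀ v, v ∉ S → ∀ u ∈ V, ∃ a ∈ U, a ∈ locSub D v ∧ TrivialAt v (a⁻¹ * u)
  inter : ∀ v, v ∉ S → ∀ a ∈ V, a ∈ locSub D v → a ∈ U
  good : ∀ v, v ∉ S → IsGoodAt U v

/-- If all elements of `K` are trivial away from `ℓ` and `U` is tame, then the elements of `U ⊔ K` are
the products `u k`. Proof: `u k = k u` (`mul_comm_of_disjoint`), so the set of products is a subgroup;
or `Subgroup.sup_eq_closure_mul` and `Subgroup.mul_normal`-type lemmas
(`Subgroup.mem_sup_of_normal_..`); easiest: `Subgroup.closure_induction` or show that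
`{u * k}` is the carrier of a subgroup that contains `U` and `K`. -/
theorem mem_sup_iff {ℓ : ℕ} {U K : Subgroup D.Ad} (hU : IsTame ℓ U)
    (hK : ∀ g ∈ K, ∀ v : HeightOneSpectrum (𝓞 F), (ℓ : 𝓞 F) ∉ v.asIdeal → TrivialAt v g)
    {g : D.Ad} : g ∈ U ⊔ K ↔ ∃ u ∈ U, ∃ k ∈ K, g = u * k := by
  have hcomm : ∀ u ∈ U, ∀ k ∈ K, u * k = k * u := by
    intro u hu k hk
    refine mul_comm_of_disjoint fun v => ?_
    by_cases hv : (ℓ : 𝓞 F) ∈ v.asIdeal
    · exact Or.inl (hU u hu v hv)
    · exact Or.inr (hK k hk v hv)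
  constructor
  · intro hg
    let W : Subgroup D.Ad :=
      { carrier := {g | ∃ u ∈ U, ∃ k ∈ K, g = u * k}
        one_mem' := ⟨1, one_mem _, 1, one_mem _, (one_mul 1).symm⟩
        mul_mem' := by
          rintro _ _ ⟨u, hu, k, hk, rfl⟩ ⟨u', hu', k', hk', rfl⟩
          refine ⟨u * u', mul_mem hu hu', k * k', mul_mem hk hk', ?_⟩
          calc u * k * (u' * k') = u * (k * u') * k' := by group
            _ = u * (u' * k) * k' := by rw [hcomm u' hu' k hk]
            _ = u * u' * (k * k') := by group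
        inv_mem' := by
          rintro _ ⟨u, hu, k, hk, rfl⟩
          refine ⟨u⁻¹, inv_mem hu, k⁻¹, inv_mem hk, ?_⟩
          rw [mul_inv_rev, hcomm u⁻¹ (inv_mem hu) k⁻¹ (inv_mem hk)] }
    have hle : U ⊔ K ≤ W := by
      refine sup_le ?_ ?_
      · intro u hu
        exact ⟨u, hu, 1, one_mem _, (mul_one u).symm⟩
      · intro k hk
        exact ⟨1, one_mem _, k, hk, (one_mul k).symm⟩
    exact hle hg
  · rintro ⟨u, hu, k, hk, rfl⟩
    exact Subgroup.mul_mem_sup hu hk

/-- Proof: write `u' = u k` (`mem_sup_iff`). `split`: take `a` from `IsGoodAt.split` for `u`; then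
`a⁻¹ u k` is trivial at `v` since `k` is (`v ∤ ℓ` because `v ∉ S`). `inter`: if `u k ∈ G(F_v)`,
`v ∤ ℓ`, then at the places above `ℓ` both `u k` and `u` are trivial, so `k` is, hence `k = 1`
(`eq_one_of_trivialAt`). -/
theorem good_of_isLevel (ℓ : ℕ) {S : Finset (HeightOneSpectrum (𝓞 F))}
    (hSl : ∀ v : HeightOneSpectrum (𝓞 F), (ℓ : 𝓞 F) ∈ v.asIdeal → v ∈ S) {U K : Subgroup D.Ad}
    (hU : IsTame ℓ U) (hUS : ∀ v, v ∉ S → IsGoodAt U v) (hK : IsLevel ℓ U K) :
    Good S U (U ⊔ K) := by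
  refine ⟨hK.isOpen, hK.isCompact, le_sup_left, ?_, ?_, hUS⟩
  · intro v hv u' hu'
    obtain ⟨u, hu, k, hk, rfl⟩ := (mem_sup_iff hU hK.supp).1 hu'
    obtain ⟨a, ha, ha', ha''⟩ := (hUS v hv).split u hu
    refine ⟨a, ha, ha', ?_⟩
    have hkt : TrivialAt v k := hK.supp k hk v fun h => hv (hSl v h)
    have := ha''.mul hkt
    rwa [mul_assoc] at this
  · intro v hv a ha ha'
    obtain ⟨u, hu, k, hk, rfl⟩ := (mem_sup_iff hU hK.supp).1 ha
    have hk1 : k = 1 := by
      refine eq_one_of_trivialAt fun w => ?_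
      by_cases hw : (ℓ : 𝓞 F) ∈ w.asIdeal
      · have hne : w ≠ v := by
          rintro rfl
          exact hv (hSl w hw)
        have h1 := (hU u hu w hw).inv.mul (ha' w hne)
        rwa [inv_mul_cancel_left] at h1
      · exact hK.supp k hk w hw
    rw [hk1, mul_one]
    exact hu

end Pool.Agent.Lib.MP_666dc0_nt.WL
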