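import Pool.Agent.Lib.MP_666dc0_nt.WL.Base

open NumberField IsDedekindDomain
open scoped NumberField

namespace Pool.Agent.Lib.MP_666dc0_nt.WL

variable {F : Type} [Field F] [NumberField F] {n : ℕ} {D : Datum F n}

/-- The form is invariant under `G(R)`: immediate from `gᵀ q g = q`. -/
theorem qf_mulVec {R : Type} [CommRing R] (φ : F →+* R) (g : D.points φ) (x y : Fin n → R) :
    qf D φ (g.1.1.mulVec x) (g.1.1.mulVec y) = qf D φ x y := by
  have hg := g.2.1
  unfold qf
  rw [Matrix.dotProduct_mulVec, Matrix.dotProduct_mulVec, Matrix.dotProduct_mulVec]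
  rw [← Matrix.vecMul_transpose, Matrix.vecMul_vecMul, Matrix.vecMul_vecMul, ← Matrix.mul_assoc, hg]

/-- The tensor pairing is invariant under `G(R)`.
Proof: write `Q = D.q.map φ`, `w = φ ∘ D.w s`, `W g = tensAct g w = w` (definition of `points`). From
`gᵀ Q g = Q` we get `Q g y = (g⁻¹)ᵀ Q y`, i.e. `(Q *ᵥ (g *ᵥ y)) j = ∑ i, (g⁻¹) i j * (Q *ᵥ y) i`. So
`pairT (g y) = ∑ J, w J ∏ t (∑ i, (g⁻¹) i (J t) (Q y_t) i) = ∑ I, (∑ J, (∏ t, (g⁻¹) (I t) (J t)) w J)
∏ t (Q y_t)(I t) = ∑ I, (tensAct g⁻¹ w) I ∏ t (Q y_t)(I t)` and `tensAct g⁻¹ w = w` since `g⁻¹` is in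
the group `D.points φ`. (`Finset.prod_univ_sum`, `Fintype.piFinset_univ`, `Finset.sum_comm`, as in
`tensAct_mul`.) -/
theorem pairT_mulVec {R : Type} [CommRing R] (φ : F →+* R) (g : D.points φ) (s : Fin D.m)
    (y : Fin (D.deg s) → Fin n → R) :
    pairT D φ s (fun t => g.1.1.mulVec (y t)) = pairT D φ s y := by
  have hg := g.2.1
  have h2 : g.1.1 * (g⁻¹).1.1 = 1 := by
    have : g * g⁻¹ = 1 := mul_inv_cancel g
    have h3 := congrArg (fun z : D.points φ => (z.1.1 : Matrix (Fin n) (Fin n) R)) this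
    exact h3
  have h4 : (D.q.map φ) * g.1.1 = ((g⁻¹).1.1).transpose * D.q.map φ := by
    have h5 : ((g⁻¹).1.1).transpose * (g.1.1).transpose = (1 : Matrix (Fin n) (Fin n) R) := by
      rw [← Matrix.transpose_mul, h2, Matrix.transpose_one]
    calc (D.q.map φ) * g.1.1 = (((g⁻¹).1.1).transpose * (g.1.1).transpose) * ((D.q.map φ) * g.1.1) := by
          rw [h5, Matrix.one_mul]
      _ = ((g⁻¹).1.1).transpose * ((g.1.1).transpose * (D.q.map φ) * g.1.1) := by
          simp only [Matrix.mul_assoc]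
      _ = _ := by rw [hg]
  have h6 : ∀ (z : Fin n → R) (j : Fin n), (D.q.map φ).mulVec (g.1.1.mulVec z) j =
      ∑ i, (g⁻¹).1.1 i j * (D.q.map φ).mulVec z i := by
    intro z j
    rw [Matrix.mulVec_mulVec, h4, ← Matrix.mulVec_mulVec]
    rfl
  have hw := (g⁻¹).2.2 s
  unfold pairT
  simp only [h6]
  have h7 : ∀ J : Fin (D.deg s) → Fin n,
      ∏ t, ∑ i, (g⁻¹).1.1 i (J t) * (D.q.map φ).mulVec (y t) i =
      ∑ I : Fin (D.deg s) → Fin n, (∏ t, (g⁻¹).1.1 (I t) (J t)) *
        ∏ t, (D.q.map φ).mulVec (y t) (I t) := by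
    intro J
    rw [Finset.prod_univ_sum]
    simp only [Fintype.piFinset_univ]
    exact Finset.sum_congr rfl fun I _ => Finset.prod_mul_distrib
  simp only [h7, Finset.mul_sum]
  rw [Finset.sum_comm]
  refine Finset.sum_congr rfl fun I _ => ?_
  have h8 := congrFun hw I
  unfold tensAct at h8
  rw [← h8, Finset.sum_mul]
  exact Finset.sum_congr rfl fun J _ => by ring

/-- Compatibility with ring homomorphisms. -/
theorem qf_map {R S : Type} [CommRing R] [CommRing S] (φ : F →+* R) (f : R →+* S)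
    (x y : Fin n → R) :
    qf D (f.comp φ) (fun k => f (x k)) (fun k => f (y k)) = f (qf D φ x y) := by
  simp [qf, dotProduct, Matrix.mulVec, map_sum, map_mul]

/-- Compatibility with ring homomorphisms. -/
theorem pairT_map {R S : Type} [CommRing R] [CommRing S] (φ : F →+* R) (f : R →+* S)
    (s : Fin D.m) (y : Fin (D.deg s) → Fin n → R) :
    pairT D (f.comp φ) s (fun t k => f (y t k)) = f (pairT D φ s y) := by
  simp [pairT, dotProduct, Matrix.mulVec, map_sum, map_mul, map_prod]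

end Pool.Agent.Lib.MP_666dc0_nt.WL
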