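import Pool.Agent.Lib.MP_666dc0_nt.WL.Defs

open NumberField IsDedekindDomain
open scoped NumberField

namespace Pool.Agent.Lib.MP_666dc0_nt.WL

/-!
# WL, Sys: spaces of forms and systems of eigenvalues
-/

variable {F : Type} [Field F] [NumberField F] {n : ℕ} {D : Datum F n}

/-- The space of the algebraic automorphic forms with weights in `Q` and of level `V`. -/
def forms (D : Datum F n) (Q : Submodule ℂ (D.Cpx → ℂ)) (V : Subgroup D.Ad) :
    Submodule ℂ (D.Ad → D.Cpx → ℂ) where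
  carrier := {f | IsForm D Q V f}
  zero_mem' := ⟨fun _ => Q.zero_mem, fun _ _ _ => rfl, fun _ _ _ => rfl⟩
  add_mem' {f g} hf hg := ⟨fun x => Q.add_mem (hf.mem x) (hg.mem x),
    fun γ y x => by simp only [Pi.add_apply]; rw [hf.left, hg.left],
    fun y k hk => by simp only [Pi.add_apply]; rw [hf.right y k hk, hg.right y k hk]⟩
  smul_mem' c f hf := ⟨fun x => Q.smul_mem c (hf.mem x),
    fun γ y x => by simp only [Pi.smul_apply]; rw [hf.left],
    fun y k hk => by simp only [Pi.smul_apply]; rw [hf.right y k hk]⟩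

theorem mem_forms {Q : Submodule ℂ (D.Cpx → ℂ)} {V : Subgroup D.Ad} {f : D.Ad → D.Cpx → ℂ} :
    f ∈ forms D Q V ↔ IsForm D Q V f := Iff.rfl

/-- The eigensystems of the non-zero eigenforms with weights in `Q` and of level `V`. -/
def Sys {U : Subgroup D.Ad} (S : Finset (HeightOneSpectrum (𝓞 F)))
    (Q : Submodule ℂ (D.Cpx → ℂ)) (V : Subgroup D.Ad) : Set (∀ v, Hecke U v → ℂ) :=
  {lam | ∃ f, f ≠ 0 ∧ IsForm D Q V f ∧ IsEigen S f lam}

/-- The index set: the `ℓ`-integral Hecke operators at the places outside `S`. -/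
def IX (ℓ : ℕ) [Fact ℓ.Prime] (S : Finset (HeightOneSpectrum (𝓞 F))) (U : Subgroup D.Ad) : Type :=
  {p : Σ v, Hecke U v // p.1 ∉ S ∧ p.2.IsIntegral ℓ}

/-- The value of a polynomial in the Hecke operators at a system of eigenvalues. -/
noncomputable def pval (ℓ : ℕ) [Fact ℓ.Prime] (S : Finset (HeightOneSpectrum (𝓞 F)))
    {U : Subgroup D.Ad} (lam : ∀ v, Hecke U v → ℂ) : MvPolynomial (IX ℓ S U) ℤ →+* ℂ :=
  (MvPolynomial.aeval (R := ℤ) fun x : IX ℓ S U => lam x.1.1 x.1.2).toRingHom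

/-- The key inequality: the values `ι (P(lam))` of all integral polynomials `P` in the Hecke
operators are controlled by the values at finitely many systems of the family `Fam`. -/
def Controlled (ℓ : ℕ) [Fact ℓ.Prime] (S : Finset (HeightOneSpectrum (𝓞 F)))
    {U : Subgroup D.Ad} (ι : ℂ ≃+* PadicAlgCl ℓ) (Fam : Set (∀ v, Hecke U v → ℂ))
    (lam : ∀ v, Hecke U v → ℂ) : Prop :=
  ∀ ε : ℝ, 0 < ε → ∃ I : Set (∀ v, Hecke U v → ℂ), I.Finite ∧ I ⊆ Fam ∧ ∃ δ : ℝ, 0 < δ ∧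
    ∀ P : MvPolynomial (IX ℓ S U) ℤ, (∀ e ∈ I, ‖ι (pval ℓ S e P)‖ ≤ δ) → ‖ι (pval ℓ S lam P)‖ ≤ ε

end Pool.Agent.Lib.MP_666dc0_nt.WL
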