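import Mathlib

/-!
# WL, G1: compact unit balls
-/

namespace Pool.Agent.Lib.MP_666dc0_nt.WL

variable (ℓ : ℕ) [Fact ℓ.Prime]

/-- The unit ball of a finite extension of `ℚ_ℓ` is compact.
Proof: `L` is a finite dimensional normed space over the locally compact (proper) field `ℚ_[ℓ]`, so
it is a proper space (`FiniteDimensional.proper`), its closed unit ball is compact
(`isCompact_closedBall`), and the set is its image under the continuous inclusion. -/
theorem isCompact_ball (L : IntermediateField ℚ_[ℓ] (PadicAlgCl ℓ)) [FiniteDimensional ℚ_[ℓ] L] :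
    IsCompact {z : PadicAlgCl ℓ | z ∈ L ∧ ‖z‖ ≤ 1} := by
  let W : Submodule ℚ_[ℓ] (PadicAlgCl ℓ) := Subalgebra.toSubmodule L.toSubalgebra
  have : FiniteDimensional ℚ_[ℓ] W := (inferInstance : FiniteDimensional ℚ_[ℓ] L)
  have : ProperSpace W := FiniteDimensional.proper ℚ_[ℓ] W
  have h1 : IsCompact (Metric.closedBall (0 : W) 1) := isCompact_closedBall _ _
  have h2 : IsCompact ((fun w : W => (w : PadicAlgCl ℓ)) '' Metric.closedBall (0 : W) 1) :=
    h1.image continuous_subtype_val
  convert h2 using 1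
  ext z
  constructor
  · rintro ⟨hz, hn⟩
    refine ⟨⟨z, hz⟩, ?_, rfl⟩
    rw [mem_closedBall_zero_iff]
    exact hn
  · rintro ⟨w, hw, rfl⟩
    rw [mem_closedBall_zero_iff] at hw
    exact ⟨w.2, hw⟩

/-- An embedding of a number field into `ℚ̄_ℓ` has values in a finite extension of `ℚ_ℓ`.
Proof: `E` is generated over `ℚ` by finitely many elements `x k` (algebraic), put
`L = ℚ_[ℓ](j (x k))` (`IntermediateField.finiteDimensional_adjoin`; every element of `PadicAlgCl ℓ` is
integral over `ℚ_[ℓ]`). E.g. take the basis `Module.finBasis ℚ E`: `j x = ∑ (coefficient) • j (b k)`. -/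
theorem exists_finite_ext {E : Type} [Field E] [Algebra ℚ E] [FiniteDimensional ℚ E]
    (j : E →+* PadicAlgCl ℓ) :
    ∃ L : IntermediateField ℚ_[ℓ] (PadicAlgCl ℓ), FiniteDimensional ℚ_[ℓ] L ∧ ∀ x, j x ∈ L := by
  let b := Module.finBasis ℚ E
  refine ⟨IntermediateField.adjoin ℚ_[ℓ] (Set.range (fun k => j (b k))), ?_, ?_⟩
  · have : Finite (Set.range (fun k => j (b k))) := Set.finite_range _
    apply IntermediateField.finiteDimensional_adjoin
    intro x _
    exact Algebra.IsIntegral.isIntegral x
  · intro x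
    have hx : x = ∑ k, b.repr x k • b k := (b.sum_repr x).symm
    rw [hx, map_sum]
    apply sum_mem
    intro k _
    have h1 : j (b.repr x k • b k) = ((b.repr x k : ℚ) : PadicAlgCl ℓ) * j (b k) := by
      rw [Algebra.smul_def, map_mul]
      congr 1
      have : j (algebraMap ℚ E (b.repr x k)) = ((b.repr x k : ℚ) : PadicAlgCl ℓ) := by
        have h2 := eq_ratCast ((j.comp (algebraMap ℚ E))) (b.repr x k)
        exact h2
      exact this
    rw [h1]
    apply mul_mem
    · have h3 : ((b.repr x k : ℚ) : PadicAlgCl ℓ) =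
          algebraMap ℚ_[ℓ] (PadicAlgCl ℓ) ((b.repr x k : ℚ) : ℚ_[ℓ]) := by
        rw [map_ratCast]
      rw [h3]
      exact IntermediateField.algebraMap_mem _ _
    · exact IntermediateField.subset_adjoin _ _ ⟨k, rfl⟩

end Pool.Agent.Lib.MP_666dc0_nt.WL
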