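import Pool.Agent.Lib.MP_666dc0_nt.WL.Defs

open NumberField IsDedekindDomain
open scoped NumberField

namespace Pool.Agent.Lib.MP_666dc0_nt.WL

/-!
# WL, F0: forms of a type at `ℓ`
-/

variable {F : Type} [Field F] [NumberField F] {n : ℕ} {D : Datum F n}

/-- The characters of the subgroup `J` of `G(𝔸_f)`. -/
abbrev AdChar (J : Subgroup D.Ad) : Type := J →* ℂˣ

/-- Characters can be multiplied. -/
noncomputable instance instAdChar (J : Subgroup D.Ad) : CommGroup (AdChar J) :=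
  inferInstance

/-- A type: a subgroup `J` of `G(𝔸_f)` with a character `χ`. -/
structure AdType (D : Datum F n) where
  J : Subgroup D.Ad
  χ : AdChar J

/-- The kernel of the character of a type, as a subgroup of `G(𝔸_f)`. -/
noncomputable def AdType.ker (T : AdType D) : Subgroup D.Ad := T.χ.ker.map T.J.subtype

/-- The order of the character of a type. -/
noncomputable def AdType.order (T : AdType D) : ℕ := orderOf T.χ

/-- The type `(J, χ ^ i)`. -/
noncomputable def AdType.pow (T : AdType D) (i : ℕ) : AdType D := ⟨T.J, T.χ ^ i⟩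

/-- The character of the type is trivial. -/
def AdType.IsTrivial (T : AdType D) : Prop := ∀ k : T.J, T.χ k = 1

/-- `f` is an automorphic form with weights in `Q`, of tame level `U` and of type `T` at `ℓ`:
`f(g u) = f(g)` for `u ∈ U`, `f(g k) = χ(k) f(g)` for `k ∈ J` (so that `f` has level `U ker(χ)`). -/
structure IsTypeForm (D : Datum F n) (Q : Submodule ℂ (D.Cpx → ℂ)) (U : Subgroup D.Ad)
    (T : AdType D) (f : D.Ad → D.Cpx → ℂ) : Prop where
  form : IsForm D Q (U ⊔ T.ker) f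
  type : ∀ (g : D.Ad) (k : T.J) (x : D.Cpx), f (g * k) x = T.χ k * f g x

/-- The set `𝒯` of types is omnipresent at `ℓ`: the kernels are levels, and there are arbitrarily
small levels `J` at `ℓ` with a character `χ` whose order is an arbitrarily large power of `ℓ`, all of
whose non-trivial powers give types in `𝒯`. -/
structure IsOmni (ℓ : ℕ) (U : Subgroup D.Ad) (T : Set (AdType D)) : Prop where
  level : ∀ t ∈ T, IsLevel ℓ U t.ker
  exists_type : ∀ K, IsLevel ℓ U K → ∀ m : ℕ, ∃ (t : AdType D) (k : ℕ),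
    t.J ≤ K ∧ IsLevel ℓ U t.J ∧ m ≤ k ∧ t.order = ℓ ^ k ∧
      ∀ i : ℕ, ¬(t.pow i).IsTrivial → t.pow i ∈ T

theorem IsOmni.exists_char {ℓ : ℕ} {U : Subgroup D.Ad} {T : Set (AdType D)}
    (h : IsOmni ℓ U T) : ∀ K, IsLevel ℓ U K → ∀ m : ℕ,
    ∃ (J : Subgroup D.Ad) (χ : J →* ℂˣ) (k : ℕ),
    J ≤ K ∧ IsLevel ℓ U J ∧ m ≤ k ∧ orderOf χ = ℓ ^ k ∧
      ∀ i : ℕ, χ ^ i ≠ 1 → (⟨J, χ ^ i⟩ : AdType D) ∈ T := by
  intro K hK m
  obtain ⟨t, k, h1, h2, h3, h4, h5⟩ := h.exists_type K hK m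
  exact ⟨t.J, t.χ, k, h1, h2, h3, h4, fun i hi => h5 i fun h6 =>
    hi (MonoidHom.ext fun x => h6 x)⟩

/-- The eigensystems of the non-zero eigenforms of type `T`. -/
def SysT {U : Subgroup D.Ad} (S : Finset (HeightOneSpectrum (𝓞 F)))
    (Q : Submodule ℂ (D.Cpx → ℂ)) (T : AdType D) : Set (∀ v, Hecke U v → ℂ) :=
  {lam | ∃ f, f ≠ 0 ∧ IsTypeForm D Q U T f ∧ IsEigen S f lam}

/-- The condition of the type, as an equation of functions. -/
theorem IsTypeForm.type' {Q : Submodule ℂ (D.Cpx → ℂ)} {U : Subgroup D.Ad} {T : AdType D}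
    {f : D.Ad → D.Cpx → ℂ} (hf : IsTypeForm D Q U T f) (g : D.Ad) (k : T.J) :
    f (g * k) = ((T.χ k : ℂˣ) : ℂ) • f g :=
  funext fun x => hf.type g k x

/-- A function that is right invariant under `U` and transforms by `χ` under `J` has level
`U ⊔ ker χ`. Proof: the elements of `T.ker` act trivially, and the `k` with `∀ g, f (g * k) = f g`
form a subgroup. -/
theorem IsTypeForm.mk' {Q : Submodule ℂ (D.Cpx → ℂ)} {U : Subgroup D.Ad} {T : AdType D}
    {f : D.Ad → D.Cpx → ℂ} (hmem : ∀ g, f g ∈ Q)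
    (hleft : ∀ (γ : D.Rat) (g : D.Ad) (x : D.Cpx), f (D.toAd γ * g) x = f g (x * D.toCpx γ))
    (hright : ∀ g, ∀ u ∈ U, f (g * u) = f g)
    (htype : ∀ (g : D.Ad) (k : T.J), f (g * k) = ((T.χ k : ℂˣ) : ℂ) • f g) :
    IsTypeForm D Q U T f := by
  let H : Subgroup D.Ad :=
    { carrier := {k | ∀ g, f (g * k) = f g}
      one_mem' := fun g => by rw [mul_one]
      mul_mem' := fun {a b} ha hb g => by rw [← mul_assoc, hb, ha]
      inv_mem' := fun {a} ha g => by
        have h := ha (g * a⁻¹)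
        rw [inv_mul_cancel_right] at h
        exact h.symm }
  have h1 : U ≤ H := fun u hu g => hright g u hu
  have h2 : T.ker ≤ H := by
    intro k hk g
    obtain ⟨j, hj, rfl⟩ := Subgroup.mem_map.1 hk
    have h3 := htype g j
    rw [MonoidHom.mem_ker.1 hj, Units.val_one, one_smul] at h3
    exact h3
  exact ⟨⟨hmem, hleft, fun g k hk => (sup_le h1 h2) hk g⟩,
    fun g k x => congrFun (htype g k) x⟩

/-- A form of type `T` is a form of level `U ⊔ T.ker`. -/
theorem IsTypeForm.isForm {Q : Submodule ℂ (D.Cpx → ℂ)} {U : Subgroup D.Ad} {T : AdType D}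
    {f : D.Ad → D.Cpx → ℂ} (hf : IsTypeForm D Q U T f) : IsForm D Q (U ⊔ T.ker) f :=
  hf.form

end Pool.Agent.Lib.MP_666dc0_nt.WL
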