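import Mathlib

/-!
# Algebraic automorphic forms on groups that are compact at infinity

Definitions: the group `G ⊆ GL_n` over a number field `F` that stabilises a quadratic form and
finitely many tensors, its finite adelic points, Hecke operators, and the algebraic automorphic
forms of all weights.
-/

open NumberField IsDedekindDomain
open scoped NumberField

namespace Pool.Agent.Lib.MP_666dc0_nt.WL

/-- The symmetric matrix `q` over `F` is totally positive definite: its image under every
embedding `F → ℝ` is positive definite. -/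
def IsTotPosDef {F : Type} [Field F] {n : ℕ} (q : Matrix (Fin n) (Fin n) F) : Prop :=
  q.IsSymm ∧ ∀ τ : F →+* ℝ, (q.map τ).PosDef

/-- The action of an `n × n` matrix `g` on the tensors `t ∈ (Rⁿ)^{⊗ a}`. -/
def tensAct {R : Type} [CommRing R] {n a : ℕ} (g : Matrix (Fin n) (Fin n) R)
    (t : (Fin a → Fin n) → R) : (Fin a → Fin n) → R :=
  fun I => ∑ J : Fin a → Fin n, (∏ s, g (I s) (J s)) * t J

theorem tensAct_one {R : Type} [CommRing R] {n a : ℕ} (t : (Fin a → Fin n) → R) :
    tensAct (1 : Matrix (Fin n) (Fin n) R) t = t := by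
  funext I
  unfold tensAct
  rw [Finset.sum_eq_single I]
  · simp
  · intro J _ hJ
    obtain ⟨s, hs⟩ : ∃ s, I s ≠ J s := by
      by_contra h
      push Not at h
      exact hJ (funext h).symm
    have h0 : (1 : Matrix (Fin n) (Fin n) R) (I s) (J s) = 0 := Matrix.one_apply_ne hs
    have h1 : ∏ s, (1 : Matrix (Fin n) (Fin n) R) (I s) (J s) = 0 :=
      Finset.prod_eq_zero (Finset.mem_univ s) h0
    rw [h1, zero_mul]
  · intro h
    exact absurd (Finset.mem_univ _) h

theorem tensAct_mul {R : Type} [CommRing R] {n a : ℕ} (g h : Matrix (Fin n) (Fin n) R)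
    (t : (Fin a → Fin n) → R) : tensAct (g * h) t = tensAct g (tensAct h t) := by
  funext I
  unfold tensAct
  simp only [Matrix.mul_apply, Finset.mul_sum]
  rw [Finset.sum_comm]
  refine Finset.sum_congr rfl fun J _ => ?_
  rw [Finset.prod_univ_sum, Finset.sum_mul]
  simp only [Fintype.piFinset_univ]
  refine Finset.sum_congr rfl fun L _ => ?_
  rw [Finset.prod_mul_distrib]
  ring

/-- A symmetric `n × n` matrix `q` over `F` and finitely many tensors
`w i ∈ (Fⁿ)^{⊗ deg i}`, `i < m`. -/
structure Datum (F : Type) [Field F] (n : ℕ) where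
  /-- the quadratic form -/
  q : Matrix (Fin n) (Fin n) F
  /-- the number of tensors -/
  m : ℕ
  /-- the degrees of the tensors -/
  deg : Fin m → ℕ
  /-- the tensors -/
  w : ∀ i : Fin m, (Fin (deg i) → Fin n) → F

variable {F : Type} [Field F] {n : ℕ}

/-- The points over the ring `R` (with structure map `φ : F → R`) of the group `G` of all matrices
`g ∈ GL_n` with `gᵀ q g = q` that fix all the tensors `w i`. -/
def Datum.points (D : Datum F n) {R : Type} [CommRing R] (φ : F →+* R) :
    Subgroup (GL (Fin n) R) where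
  carrier := {g | (g : Matrix (Fin n) (Fin n) R).transpose * D.q.map φ *
      (g : Matrix (Fin n) (Fin n) R) = D.q.map φ ∧
    ∀ i, tensAct (g : Matrix (Fin n) (Fin n) R) (fun I => φ (D.w i I)) = fun I => φ (D.w i I)}
  one_mem' := by
    refine ⟨by simp, fun i => ?_⟩
    rw [Units.val_one]
    exact tensAct_one _
  mul_mem' := by
    rintro g h ⟨hg, hg'⟩ ⟨hh, hh'⟩
    refine ⟨?_, fun i => ?_⟩
    · rw [Units.val_mul, Matrix.transpose_mul]
      calc _ = (h : Matrix (Fin n) (Fin n) R).transpose *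
            ((g : Matrix (Fin n) (Fin n) R).transpose * D.q.map φ * g) * h := by
            simp only [Matrix.mul_assoc]
        _ = _ := by rw [hg, hh]
    · rw [Units.val_mul, tensAct_mul, hh', hg']
  inv_mem' := by
    rintro g ⟨hg, hg'⟩
    have h1 : (g : Matrix (Fin n) (Fin n) R) * ((g⁻¹ : GL (Fin n) R) : Matrix _ _ R) = 1 := by
      rw [← Units.val_mul, mul_inv_cancel, Units.val_one]
    have h2 : ((g⁻¹ : GL (Fin n) R) : Matrix _ _ R) * (g : Matrix (Fin n) (Fin n) R) = 1 := by
      rw [← Units.val_mul, inv_mul_cancel, Units.val_one]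
    refine ⟨?_, fun i => ?_⟩
    · have h3 : ((g⁻¹ : GL (Fin n) R) : Matrix _ _ R).transpose *
          (g : Matrix (Fin n) (Fin n) R).transpose = 1 := by
        rw [← Matrix.transpose_mul, h1, Matrix.transpose_one]
      calc ((g⁻¹ : GL (Fin n) R) : Matrix _ _ R).transpose * D.q.map φ *
            ((g⁻¹ : GL (Fin n) R) : Matrix _ _ R)
          = ((g⁻¹ : GL (Fin n) R) : Matrix _ _ R).transpose *
            ((g : Matrix (Fin n) (Fin n) R).transpose * D.q.map φ *
              (g : Matrix (Fin n) (Fin n) R)) *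
            ((g⁻¹ : GL (Fin n) R) : Matrix _ _ R) := by rw [hg]
        _ = (((g⁻¹ : GL (Fin n) R) : Matrix _ _ R).transpose *
            (g : Matrix (Fin n) (Fin n) R).transpose) * D.q.map φ *
            ((g : Matrix (Fin n) (Fin n) R) * ((g⁻¹ : GL (Fin n) R) : Matrix _ _ R)) := by
            simp only [Matrix.mul_assoc]
        _ = _ := by rw [h1, h3, Matrix.one_mul, Matrix.mul_one]
    · calc tensAct ((g⁻¹ : GL (Fin n) R) : Matrix _ _ R) (fun I => φ (D.w i I))
          = tensAct ((g⁻¹ : GL (Fin n) R) : Matrix _ _ R)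
            (tensAct (g : Matrix (Fin n) (Fin n) R) (fun I => φ (D.w i I))) := by rw [hg']
        _ = _ := by rw [← tensAct_mul, h2, tensAct_one]

theorem tensAct_map {R S : Type} [CommRing R] [CommRing S] {n a : ℕ} (f : R →+* S)
    (g : Matrix (Fin n) (Fin n) R) (t : (Fin a → Fin n) → R) :
    tensAct (g.map f) (fun I => f (t I)) = fun I => f (tensAct g t I) := by
  funext I
  simp [tensAct, map_sum, map_mul, map_prod]

theorem Datum.map_mem (D : Datum F n) {R S : Type} [CommRing R] [CommRing S] (φ : F →+* R)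
    (f : R →+* S) (g : D.points φ) :
    Matrix.GeneralLinearGroup.map f g.1 ∈ D.points (f.comp φ) := by
  have hq : D.q.map (f.comp φ) = (D.q.map φ).map f := by
    ext i j
    simp
  have hg := g.2.1
  have hg' := g.2.2
  refine ⟨?_, fun i => ?_⟩
  · have h := congrArg (fun M : Matrix (Fin n) (Fin n) R => M.map f) hg
    simp only [Matrix.map_mul] at h
    rw [hq]
    exact h
  · have h := congrArg (fun (t : (Fin (D.deg i) → Fin n) → R) I => f (t I)) (hg' i)
    exact (tensAct_map f g.1.1 _).trans h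

/-- Functoriality of the group of points: apply the homomorphism `f` to the entries. -/
def Datum.mapPoints (D : Datum F n) {R S : Type} [CommRing R] [CommRing S] (φ : F →+* R)
    (f : R →+* S) : D.points φ →* D.points (f.comp φ) :=
  ((Matrix.GeneralLinearGroup.map f).comp (D.points φ).subtype).codRestrict
    (D.points (f.comp φ)) (D.map_mem φ f)

variable [NumberField F]

/-- The group `G(𝔸_f)` of finite adelic points of `G`. -/
abbrev Datum.Ad (D : Datum F n) : Type :=
  D.points (algebraMap F (FiniteAdeleRing (𝓞 F) F))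

/-- The group structure of `G(𝔸_f)`, a subgroup of `GL_n(𝔸_f)`. -/
noncomputable instance instGroupAd (D : Datum F n) : Group D.Ad :=
  Subgroup.toGroup (D.points (algebraMap F (FiniteAdeleRing (𝓞 F) F)))

/-- The group `G(F)`. -/
abbrev Datum.Rat (D : Datum F n) : Type := D.points (RingHom.id F)

/-- The group `G(F ⊗ ℂ)`, the product of the groups `G_τ(ℂ)` over all embeddings `τ : F → ℂ`. -/
abbrev Datum.Cpx (D : Datum F n) : Type := ∀ τ : F →+* ℂ, D.points τ

/-- The diagonal embedding `G(F) → G(𝔸_f)`. -/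
noncomputable def Datum.toAd (D : Datum F n) : D.Rat →* D.Ad :=
  D.mapPoints (RingHom.id F) (algebraMap F (FiniteAdeleRing (𝓞 F) F))

/-- The embedding `G(F) → G(F ⊗ ℂ)`. -/
def Datum.toCpx (D : Datum F n) : D.Rat →* D.Cpx :=
  MonoidHom.pi fun τ => D.mapPoints (RingHom.id F) τ

variable {D : Datum F n}

/-- The component at the finite place `v` of `g ∈ G(𝔸_f)` is trivial. -/
def TrivialAt (v : HeightOneSpectrum (𝓞 F)) (g : D.Ad) : Prop :=
  (g.1 : Matrix (Fin n) (Fin n) (FiniteAdeleRing (𝓞 F) F)).map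
    (fun a => (a v : v.adicCompletion F)) = 1

theorem TrivialAt.one (v : HeightOneSpectrum (𝓞 F)) : TrivialAt v (1 : D.Ad) := by
  ext i j
  by_cases h : i = j
  · subst h
    simp only [OneMemClass.coe_one, Units.val_one, Matrix.map_apply, Matrix.one_apply_eq]
    rfl
  · simp only [OneMemClass.coe_one, Units.val_one, Matrix.map_apply, Matrix.one_apply_ne h]
    rfl

/-- Evaluation of finite adeles at `v` as a ring homomorphism. -/
noncomputable def evalAt (F : Type) [Field F] [NumberField F] (v : HeightOneSpectrum (𝓞 F)) :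
    FiniteAdeleRing (𝓞 F) F →+* v.adicCompletion F where
  toFun a := a v
  map_one' := rfl
  map_mul' _ _ := rfl
  map_zero' := rfl
  map_add' _ _ := rfl

theorem trivialAt_iff (v : HeightOneSpectrum (𝓞 F)) (g : D.Ad) :
    TrivialAt v g ↔ Matrix.GeneralLinearGroup.map (evalAt F v) g.1 = 1 := by
  constructor
  · intro h
    exact Units.ext h
  · intro h
    exact congrArg Units.val h

/-- The subgroup `G(F_v)` of `G(𝔸_f)`: the elements with trivial components outside `v`. -/
def locSub (D : Datum F n) (v : HeightOneSpectrum (𝓞 F)) : Subgroup D.Ad where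
  carrier := {g | ∀ w, w ≠ v → TrivialAt w g}
  one_mem' w _ := TrivialAt.one w
  mul_mem' {a b} ha hb w hw := by
    have h1 := (trivialAt_iff w a).1 (ha w hw)
    have h2 := (trivialAt_iff w b).1 (hb w hw)
    exact (trivialAt_iff w (a * b)).2 (by rw [Subgroup.coe_mul, map_mul, h1, h2, one_mul])
  inv_mem' {a} ha w hw := by
    have h1 := (trivialAt_iff w a).1 (ha w hw)
    exact (trivialAt_iff w a⁻¹).2 (by rw [Subgroup.coe_inv, map_inv, h1, inv_one])

/-- The group `G(F_v)`. -/
abbrev Loc (D : Datum F n) (v : HeightOneSpectrum (𝓞 F)) : Type := locSub D v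

/-- The group structure of `G(F_v)`. -/
noncomputable instance instGroupLoc (D : Datum F n) (v : HeightOneSpectrum (𝓞 F)) :
    Group (Loc D v) :=
  Subgroup.toGroup (locSub D v)

/-- A tame level: a subgroup of `G(𝔸_f)` all of whose elements have trivial components at the
places above `ℓ`. -/
def IsTame (ℓ : ℕ) (U : Subgroup D.Ad) : Prop :=
  ∀ g ∈ U, ∀ v : HeightOneSpectrum (𝓞 F), (ℓ : 𝓞 F) ∈ v.asIdeal → TrivialAt v g

/-- `K` is a level at `ℓ` for the tame level `U`: the elements of `K` have trivial components at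
the places not above `ℓ`, and the subgroup `U K` of `G(𝔸_f)` is open and compact. -/
structure IsLevel (ℓ : ℕ) (U K : Subgroup D.Ad) : Prop where
  supp : ∀ g ∈ K, ∀ v : HeightOneSpectrum (𝓞 F), (ℓ : 𝓞 F) ∉ v.asIdeal → TrivialAt v g
  isOpen : IsOpen ((U ⊔ K : Subgroup D.Ad) : Set D.Ad)
  isCompact : IsCompact ((U ⊔ K : Subgroup D.Ad) : Set D.Ad)

/-- The coset space `G(F_v) / (U ∩ G(F_v))`. -/
abbrev LocQuot (U : Subgroup D.Ad) (v : HeightOneSpectrum (𝓞 F)) : Type :=
  locSub D v ⧸ U.subgroupOf (locSub D v)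

/-- The Hecke algebra (with rational coefficients) of `G(F_v)` with respect to `U ∩ G(F_v)`: the
finitely supported functions on `G(F_v) / (U ∩ G(F_v))` that are left invariant under
`U ∩ G(F_v)`. -/
def Hecke (U : Subgroup D.Ad) (v : HeightOneSpectrum (𝓞 F)) : Type :=
  {h : LocQuot U v →₀ ℚ // ∀ u : Loc D v, (u : D.Ad) ∈ U → ∀ c : LocQuot U v, h (u • c) = h c}

/-- The values of the Hecke function `h` are `ℓ`-integral. -/
def Hecke.IsIntegral (ℓ : ℕ) [Fact ℓ.Prime] {U : Subgroup D.Ad} {v : HeightOneSpectrum (𝓞 F)}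
    (h : Hecke U v) : Prop := ∀ c, ‖((h.1 c : ℚ) : ℚ_[ℓ])‖ ≤ 1

/-- The Hecke operator of `h`, acting on functions on `G(𝔸_f)` with values in a complex vector
space: `(T_h f)(g) = ∑ h(x) f(g x)`, the sum over `x ∈ G(F_v) / (U ∩ G(F_v))`. -/
noncomputable def Hecke.act {U : Subgroup D.Ad} {v : HeightOneSpectrum (𝓞 F)} (h : Hecke U v)
    {M : Type} [AddCommGroup M] [Module ℂ M] (f : D.Ad → M) : D.Ad → M :=
  fun g => h.1.sum fun c a => (a : ℂ) • f (g * (Quotient.out c : locSub D v))

/-- The tame level `U` is good at `v`: it is the product of `U ∩ G(F_v)` and of a group with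
trivial components at `v`, and the Hecke algebra at `v` is commutative. -/
structure IsGoodAt (U : Subgroup D.Ad) (v : HeightOneSpectrum (𝓞 F)) : Prop where
  split : ∀ u ∈ U, ∃ a ∈ U, a ∈ locSub D v ∧ TrivialAt v (a⁻¹ * u)
  comm : ∀ (h h' : Hecke U v) (f : D.Ad → ℂ), (∀ g, ∀ u ∈ U, f (g * u) = f g) →
    h.act (h'.act f) = h'.act (h.act f)

/-- The matrix coefficient `x ↦ (x_τ)_{ij}` on `G(F ⊗ ℂ)`. -/
def coord (D : Datum F n) (τ : F →+* ℂ) (i j : Fin n) : D.Cpx → ℂ :=
  fun x => ((x τ).1 : Matrix (Fin n) (Fin n) ℂ) i j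

/-- The algebra of all polynomial functions on `G(F ⊗ ℂ)`. -/
noncomputable def polyFun (D : Datum F n) : Subalgebra ℂ (D.Cpx → ℂ) :=
  Algebra.adjoin ℂ {p | ∃ τ i j, p = coord D τ i j}

/-- The space of all polynomial functions of degree `≤ d` on `G(F ⊗ ℂ)`. -/
noncomputable def polyLE (D : Datum F n) (d : ℕ) : Submodule ℂ (D.Cpx → ℂ) :=
  (Submodule.span ℂ ({1} ∪ {p | ∃ τ i j, p = coord D τ i j})) ^ d

/-- The space of all polynomial functions on `G(F ⊗ ℂ)`. -/
noncomputable abbrev polySub (D : Datum F n) : Submodule ℂ (D.Cpx → ℂ) :=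
  Subalgebra.toSubmodule (polyFun D)

/-- The space of the constant functions on `G(F ⊗ ℂ)`. -/
noncomputable abbrev constSub (D : Datum F n) : Submodule ℂ (D.Cpx → ℂ) :=
  Submodule.span ℂ {1}

/-- `p` is a polynomial function on `G(F ⊗ ℂ)`. -/
def IsPoly (p : D.Cpx → ℂ) : Prop := p ∈ polyFun D

/-- `p` is a polynomial function of degree `≤ d` on `G(F ⊗ ℂ)`. -/
def IsPolyLE (d : ℕ) (p : D.Cpx → ℂ) : Prop := p ∈ polyLE D d

/-- `f` is an algebraic automorphic form on `G` with weights in `Q` and of level `V`. Here `Q` is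
a space of polynomial functions on `G(F ⊗ ℂ)`; `f` is a function on `G(𝔸_f)` with values in `Q`
such that `f(γ g)(x) = f(g)(x γ)` for `γ ∈ G(F)` and `f(g k) = f(g)` for `k ∈ V`. (For
`Q = polyFun D` this is the direct sum over all irreducible algebraic representations `W` of
`G(F ⊗ ℂ)` of the spaces of automorphic forms of weight `W`, each taken `dim W` times.) -/
structure IsForm (D : Datum F n) (Q : Submodule ℂ (D.Cpx → ℂ)) (V : Subgroup D.Ad)
    (f : D.Ad → D.Cpx → ℂ) : Prop where
  mem : ∀ g, f g ∈ Q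
  left : ∀ (γ : D.Rat) (g : D.Ad) (x : D.Cpx), f (D.toAd γ * g) x = f g (x * D.toCpx γ)
  right : ∀ g, ∀ k ∈ V, f (g * k) = f g

/-- The form `f` is an eigenform of all Hecke operators at the places outside `S`, with
eigenvalues `lam`. -/
def IsEigen {U : Subgroup D.Ad} (S : Finset (HeightOneSpectrum (𝓞 F))) (f : D.Ad → D.Cpx → ℂ)
    (lam : ∀ v, Hecke U v → ℂ) : Prop :=
  ∀ v, v ∉ S → ∀ h : Hecke U v, h.act f = lam v h • f

/-- The space of polynomial functions `Q` is deep at `ℓ`: it is stable under right translations, and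
there is a polynomial function `a` with `a(1) ≠ 0` such that for every `d` there are powers `a ^ N`,
with exponent `N` divisible by an arbitrarily large power of `ℓ`, whose products with all polynomial
functions of degree `≤ d` are in `Q`. -/
structure IsDeep (ℓ : ℕ) (D : Datum F n) (Q : Submodule ℂ (D.Cpx → ℂ)) : Prop where
  le : ∀ p ∈ Q, IsPoly p
  trans : ∀ p ∈ Q, ∀ y : D.Cpx, (fun x => p (x * y)) ∈ Q
  exists_pow : ∃ a : D.Cpx → ℂ, IsPoly a ∧ a 1 ≠ 0 ∧ ∀ d s : ℕ, ∃ N : ℕ, ℓ ^ s ∣ N ∧
    ∀ p : D.Cpx → ℂ, IsPolyLE d p → (fun x => a x ^ N * p x) ∈ Q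

end Pool.Agent.Lib.MP_666dc0_nt.WL
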