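import Pool.Agent.Lib.MP_666dc0_nt.Mg.G055
import Pool.Agent.Lib.MP_666dc0_nt.WL.Sys

open NumberField IsDedekindDomain
open scoped NumberField

namespace Pool.Agent.Lib.MP_666dc0_nt.WL

/-!
# WL, N2: conjugation of forms
-/

variable {F : Type} [Field F] [NumberField F] {n : ℕ} {D : Datum F n}

/-- Proof: `mem`: `cfun_mem_polyLE`. `left`: `f^s(γ g)(x) = s (f(γ g)(s⁻¹ x)) = s (f(g)(s⁻¹ x · γ)) =
s (f(g)(s⁻¹ (x γ)))` by `cpt_mul` and `cpt_toCpx`. `right`: clear. -/
theorem cform_isForm (s : ℂ ≃+* ℂ) {d : ℕ} {V : Subgroup D.Ad} {f : D.Ad → D.Cpx → ℂ}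
    (hf : IsForm D (polyLE D d) V f) : IsForm D (polyLE D d) V (cform s f) := by
  refine ⟨fun g => cfun_mem_polyLE s (hf.mem g), fun γ g x => ?_, fun g k hk => ?_⟩
  · change s (f (D.toAd γ * g) (cpt s.symm x)) = s (f g (cpt s.symm (x * D.toCpx γ)))
    rw [hf.left, cpt_mul, cpt_toCpx]
  · change cfun s (f (g * k)) = cfun s (f g)
    rw [hf.right g k hk]

/-- Proof: both sides at `g`, `x` are `∑ a • s (f (g c) (s⁻¹ x))` with rational coefficients `a`
(`map_ratCast`, `map_sum`/`map_finsuppSum`, `smul_eq_mul`, `map_mul`). -/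
theorem act_cform (s : ℂ ≃+* ℂ) {U : Subgroup D.Ad} {v : HeightOneSpectrum (𝓞 F)} (h : Hecke U v)
    (f : D.Ad → D.Cpx → ℂ) : h.act (cform s f) = cform s (h.act f) := by
  funext g x
  change (h.1.sum fun c a => (a : ℂ) • cform s f (g * (Quotient.out c : locSub D v))) x =
    s ((h.1.sum fun c a => (a : ℂ) • f (g * (Quotient.out c : locSub D v))) (cpt s.symm x))
  simp only [Finsupp.sum, Finset.sum_apply, Pi.smul_apply, smul_eq_mul, map_sum, map_mul,
    map_ratCast]
  rfl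

/-- Proof: `act_cform` and `cform s (c • f) = s c • cform s f`. -/
theorem cform_isEigen (s : ℂ ≃+* ℂ) {U : Subgroup D.Ad} {S : Finset (HeightOneSpectrum (𝓞 F))}
    {f : D.Ad → D.Cpx → ℂ} {lam : ∀ v, Hecke U v → ℂ} (hf : IsEigen S f lam) :
    IsEigen S (cform s f) (fun v h => s (lam v h)) := by
  intro v hv h
  rw [act_cform, hf v hv h]
  funext g x
  change s (lam v h * f g (cpt s.symm x)) = s (lam v h) * s (f g (cpt s.symm x))
  rw [map_mul]

/-- Proof: if `cform s f = 0` then `f g (cpt s.symm x) = 0` for all `g`, `x` (`s` is injective), and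
every point `y` is of the form `cpt s.symm (cpt s y)` (`cpt_symm_cpt`). -/
theorem cform_ne_zero (s : ℂ ≃+* ℂ) {f : D.Ad → D.Cpx → ℂ} (hf : f ≠ 0) : cform s f ≠ 0 := by
  intro h
  apply hf
  funext g y
  have h1 : s (f g (cpt s.symm (cpt s y))) = 0 := congrFun (congrFun h g) (cpt s y)
  rw [cpt_symm_cpt] at h1
  exact (map_eq_zero_iff s s.injective).1 h1

/-- The eigensystems of bounded degree are permuted by the automorphisms of `ℂ`.
Proof: the previous four. -/
theorem sys_conj (s : ℂ ≃+* ℂ) {U : Subgroup D.Ad} {S : Finset (HeightOneSpectrum (𝓞 F))} {d : ℕ}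
    {V : Subgroup D.Ad} {lam : ∀ v, Hecke U v → ℂ} (h : lam ∈ Sys S (polyLE D d) V) :
    (fun v h => s (lam v h)) ∈ Sys S (polyLE D d) V := by
  obtain ⟨f, hf0, hf, he⟩ := h
  exact ⟨cform s f, cform_ne_zero s hf0, cform_isForm s hf, cform_isEigen s he⟩

end Pool.Agent.Lib.MP_666dc0_nt.WL
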