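import Mathlib

/-!
# WL, G2: the compact ring
-/

namespace Pool.Agent.Lib.MP_666dc0_nt.WL

/-- The compact ring generated by a family of homomorphisms and a controlled homomorphism.
Proof: `R = ∏_{o : Option Z} K` (product topology, `Pi` ring), `ev : P →+* R` with components `y₀` at
`none` and `e₀ z` at `some z`, `T = (ev.range).topologicalClosure` (a `Subring R`), `x = ev` with
values in `T`, `e z` and `y` the projections (continuous). `T` is compact: the compact set
`Set.pi univ C_o` (`isCompact_univ_pi`; compact sets of a Hausdorff space are closed) contains the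
range of `ev`, hence its closure, which is closed; use `isCompact_iff_compactSpace`.
Injectivity: let `t ∈ T` with all `e z t = 0`; to show `‖t none‖ ≤ ε` for all `ε > 0`. With `I`, `δ`
from `hc ε`: the set of the `r ∈ R` with `‖r (some z)‖ < δ` for `z ∈ I` and
`‖r none - t none‖ < ε` is an open neighbourhood of `t` (`I` finite), so it contains some `ev p`
(`t` in the closure of the range: `mem_closure_iff`). Then `‖y₀ p‖ ≤ ε` and `‖t none‖ ≤ 2 ε`. -/
theorem exists_compact_ring {P : Type} [CommRing P] {Z K : Type} [NormedField K]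
    (e₀ : Z → P →+* K) (y₀ : P →+* K) (he : ∀ z, ∃ C : Set K, IsCompact C ∧ ∀ p, e₀ z p ∈ C)
    (hy : ∃ C : Set K, IsCompact C ∧ ∀ p, y₀ p ∈ C)
    (hc : ∀ ε : ℝ, 0 < ε → ∃ I : Set Z, I.Finite ∧ ∃ δ : ℝ, 0 < δ ∧
      ∀ p, (∀ z ∈ I, ‖e₀ z p‖ ≤ δ) → ‖y₀ p‖ ≤ ε) :
    ∃ (T : Type) (_ : CommRing T) (_ : TopologicalSpace T) (_ : CompactSpace T) (x : P →+* T)
      (e : Z → T →+* K) (y : T →+* K), (∀ z, Continuous (e z)) ∧ Continuous y ∧
      (∀ z p, e z (x p) = e₀ z p) ∧ (∀ p, y (x p) = y₀ p) ∧ ∀ t, (∀ z, e z t = 0) → t = 0 := by
  classical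
  set ev : P →+* (Option Z → K) := RingHom.pi (fun o => o.elim y₀ e₀) with hev
  have ev_none : ∀ p, ev p none = y₀ p := fun p => rfl
  have ev_some : ∀ z p, ev p (some z) = e₀ z p := fun z p => rfl
  have hC : ∀ o : Option Z, ∃ C : Set K, IsCompact C ∧ ∀ p, ev p o ∈ C := by
    intro o
    cases o with
    | none => exact hy
    | some z => exact he z
  choose C hCc hCm using hC
  have hKc : IsCompact (Set.pi Set.univ C) := isCompact_univ_pi hCc
  have hsub : (ev.range : Set (Option Z → K)) ⊆ Set.pi Set.univ C := by
    rintro _ ⟨p, rfl⟩ o _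
    exact hCm o p
  set T : Subring (Option Z → K) := (ev.range).topologicalClosure with hT
  have hTcoe : (T : Set (Option Z → K)) = closure (ev.range : Set (Option Z → K)) := by
    rfl
  have hTsub : (T : Set (Option Z → K)) ⊆ Set.pi Set.univ C := by
    rw [hTcoe]
    exact closure_minimal hsub hKc.isClosed
  have hTc : IsCompact (T : Set (Option Z → K)) := by
    refine hKc.of_isClosed_subset ?_ hTsub
    rw [hTcoe]
    exact isClosed_closure
  have hmem : ∀ p, ev p ∈ T := by
    intro p
    have h1 : ev p ∈ (T : Set (Option Z → K)) := by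
      rw [hTcoe]
      exact subset_closure ⟨p, rfl⟩
    exact h1
  refine ⟨T, inferInstance, inferInstance, isCompact_iff_compactSpace.mp hTc,
    ev.codRestrict T hmem, fun z => (Pi.evalRingHom (fun _ : Option Z => K) (some z)).comp T.subtype,
    (Pi.evalRingHom (fun _ : Option Z => K) none).comp T.subtype, ?_, ?_, ?_, ?_, ?_⟩
  · intro z
    exact (continuous_apply (some z)).comp continuous_subtype_val
  · exact (continuous_apply (none : Option Z)).comp continuous_subtype_val
  · intro z p
    rfl
  · intro p
    rfl
  · intro t ht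
    have hts : ∀ z, (t : Option Z → K) (some z) = 0 := fun z => ht z
    have hn : ∀ ε : ℝ, 0 < ε → ‖(t : Option Z → K) none‖ ≤ 2 * ε := by
      intro ε hε
      obtain ⟨I, hI, δ, hδ, h⟩ := hc ε hε
      have htc : (t : Option Z → K) ∈ closure (ev.range : Set (Option Z → K)) := by
        rw [← hTcoe]
        exact t.2
      rw [mem_closure_iff] at htc
      set U : Set (Option Z → K) := {r | ∀ z ∈ I, ‖r (some z)‖ < δ} ∩
        {r | ‖r none - (t : Option Z → K) none‖ < ε} with hU
      have hUo : IsOpen U := by
        refine IsOpen.inter ?_ ?_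
        · have h1 : {r : Option Z → K | ∀ z ∈ I, ‖r (some z)‖ < δ} =
              ⋂ z ∈ I, {r : Option Z → K | ‖r (some z)‖ < δ} := by
            ext r
            simp
          rw [h1]
          refine hI.isOpen_biInter fun z _ => ?_
          exact isOpen_lt (continuous_norm.comp (continuous_apply (some z))) continuous_const
        · exact isOpen_lt (continuous_norm.comp
            ((continuous_apply (none : Option Z)).sub continuous_const)) continuous_const
      have htU : (t : Option Z → K) ∈ U := by
        refine ⟨?_, ?_⟩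
        · intro z _
          rw [hts z, norm_zero]
          exact hδ
        · change ‖(t : Option Z → K) none - (t : Option Z → K) none‖ < ε
          rw [sub_self, norm_zero]
          exact hε
      obtain ⟨_, ⟨hr1, hr2⟩, p, rfl⟩ := htc U hUo htU
      have h2 : ‖y₀ p‖ ≤ ε := h p fun z hz => (hr1 z hz).le
      have h3 : ‖ev p none - (t : Option Z → K) none‖ < ε := hr2
      have h4 : (t : Option Z → K) none = ev p none - (ev p none - (t : Option Z → K) none) := by
        ring
      calc ‖(t : Option Z → K) none‖ = ‖ev p none - (ev p none - (t : Option Z → K) none)‖ := by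
            rw [← h4]
        _ ≤ ‖ev p none‖ + ‖ev p none - (t : Option Z → K) none‖ := norm_sub_le _ _
        _ ≤ ε + ε := add_le_add h2 h3.le
        _ = 2 * ε := by ring
    have hn0 : (t : Option Z → K) none = 0 := by
      by_contra hne
      have hpos : 0 < ‖(t : Option Z → K) none‖ := norm_pos_iff.mpr hne
      have := hn (‖(t : Option Z → K) none‖ / 4) (by positivity)
      linarith
    apply Subtype.ext
    funext o
    cases o with
    | none => exact hn0
    | some z => exact hts z

end Pool.Agent.Lib.MP_666dc0_nt.WL
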