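import Pool.Agent.Lib.MP_666dc0_nt.WL.C5a

open NumberField IsDedekindDomain
open scoped NumberField

namespace Pool.Agent.Lib.MP_666dc0_nt.WL

/-!
# WL, C5: Hecke operators as kernel operators on `G(𝔸_f) / V`
-/

variable {F : Type} [Field F] [NumberField F] {n : ℕ} {D : Datum F n}
  {S : Finset (HeightOneSpectrum (𝓞 F))} {U V : Subgroup D.Ad} {v : HeightOneSpectrum (𝓞 F)}

open Classical in
/-- The function on `G(𝔸_f)` with support in `G(F_v) V` that extends `h` and is right invariant under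
`V`. -/
noncomputable def ker (h : Hecke U v) (V : Subgroup D.Ad) (y : D.Ad) : ℚ :=
  if H : ∃ a : locSub D v, (a : D.Ad)⁻¹ * y ∈ V then h.1 (QuotientGroup.mk H.choose) else 0

/-- Proof: if `a⁻¹ y, a'⁻¹ y ∈ V`, then `a⁻¹ a' ∈ V ∩ G(F_v) ≤ U` (`Good.inter`), so `a` and `a'`
have the same class. -/
theorem ker_of_mem (hV : Good S U V) (hv : v ∉ S) (h : Hecke U v) {y : D.Ad} (a : locSub D v)
    (ha : (a : D.Ad)⁻¹ * y ∈ V) : ker h V y = h.1 (QuotientGroup.mk a) := by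
  classical
  have H : ∃ a : locSub D v, (a : D.Ad)⁻¹ * y ∈ V := ⟨a, ha⟩
  have h1 : ker h V y = h.1 (QuotientGroup.mk H.choose) := by
    unfold ker
    rw [dif_pos H]
  rw [h1]
  have h2 := H.choose_spec
  have h3 : (QuotientGroup.mk H.choose : locSub D v ⧸ U.subgroupOf (locSub D v)) =
      QuotientGroup.mk a := by
    rw [QuotientGroup.eq, Subgroup.mem_subgroupOf]
    refine hV.inter v hv _ ?_ (SetLike.coe_mem _)
    have h4 := V.mul_mem h2 (V.inv_mem ha)
    have h5 : ((H.choose : locSub D v) : D.Ad)⁻¹ * y * ((a : D.Ad)⁻¹ * y)⁻¹ =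
        ((H.choose⁻¹ * a : locSub D v) : D.Ad) := by
      rw [Subgroup.coe_mul, Subgroup.coe_inv]
      group
    rw [← h5]
    exact h4
  rw [h3]

/-- Proof: unfold the definition. -/
theorem exists_of_ker_ne_zero (h : Hecke U v) {y : D.Ad} (hy : ker h V y ≠ 0) :
    ∃ a : locSub D v, (a : D.Ad)⁻¹ * y ∈ V ∧ h.1 (QuotientGroup.mk a) ≠ 0 := by
  classical
  by_cases H : ∃ a : locSub D v, (a : D.Ad)⁻¹ * y ∈ V
  · refine ⟨H.choose, H.choose_spec, ?_⟩
    unfold ker at hy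
    rw [dif_pos H] at hy
    exact hy
  · exfalso
    apply hy
    unfold ker
    rw [dif_neg H]

/-- Proof: the same `a` works for `y` and `y k` (`ker_of_mem`, or both are `0`). -/
theorem ker_mul_right (hV : Good S U V) (hv : v ∉ S) (h : Hecke U v) (y : D.Ad) {k : D.Ad}
    (hk : k ∈ V) : ker h V (y * k) = ker h V y := by
  by_cases H : ∃ a : locSub D v, (a : D.Ad)⁻¹ * y ∈ V
  · obtain ⟨a, ha⟩ := H
    rw [ker_of_mem hV hv h a ha, ker_of_mem hV hv h a (by rw [← mul_assoc]; exact V.mul_mem ha hk)]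
  · have H' : ¬ ∃ a : locSub D v, (a : D.Ad)⁻¹ * (y * k) ∈ V := by
      rintro ⟨a, ha⟩
      refine H ⟨a, ?_⟩
      have := V.mul_mem ha (V.inv_mem hk)
      rwa [mul_assoc, mul_assoc, mul_inv_cancel, mul_one] at this
    unfold ker
    rw [dif_neg H, dif_neg H']

private theorem C5_left_aux (hV : Good S U V) (hv : v ∉ S) (h : Hecke U v) (y : D.Ad) {k : D.Ad}
    (hk : k ∈ V) (a : locSub D v) (ha : (a : D.Ad)⁻¹ * y ∈ V) :
    ∃ a' : locSub D v, (a' : D.Ad)⁻¹ * (k * y) ∈ V ∧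
      h.1 (QuotientGroup.mk a') = h.1 (QuotientGroup.mk a) := by
  obtain ⟨b, hbU, hbv, hbt⟩ := hV.split v hv k hk
  have hbV : b ∈ V := hV.le hbU
  have hcV : b⁻¹ * k ∈ V := V.mul_mem (V.inv_mem hbV) hk
  refine ⟨⟨b, hbv⟩ * a, ?_, ?_⟩
  · have hcomm : (b⁻¹ * k) * (a : D.Ad) = (a : D.Ad) * (b⁻¹ * k) := by
      refine mul_comm_of_disjoint fun w => ?_
      by_cases hw : w = v
      · left
        rw [hw]
        exact hbt
      · right
        exact a.2 w hw
    have h1 : ((⟨b, hbv⟩ * a : locSub D v) : D.Ad)⁻¹ * (k * y) =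
        (b⁻¹ * k) * ((a : D.Ad)⁻¹ * y) := by
      rw [Subgroup.coe_mul]
      have h2 : (a : D.Ad)⁻¹ * (b⁻¹ * k) = (b⁻¹ * k) * (a : D.Ad)⁻¹ := by
        rw [inv_mul_eq_iff_eq_mul, ← mul_assoc, ← hcomm, mul_assoc, mul_inv_cancel, mul_one]
      calc (b * (a : D.Ad))⁻¹ * (k * y) = ((a : D.Ad)⁻¹ * (b⁻¹ * k)) * y := by group
        _ = (b⁻¹ * k) * (a : D.Ad)⁻¹ * y := by rw [h2]
        _ = _ := by group
    rw [h1]
    exact V.mul_mem hcV ha
  · exact h.2 ⟨b, hbv⟩ hbU (QuotientGroup.mk a)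

/-- Proof: let `k = b c` with `b ∈ U ∩ G(F_v)` and `c ∈ V` trivial at `v` (`Good.split`). If
`a⁻¹ y ∈ V` with `a ∈ G(F_v)`, then `c` commutes with `b a ∈ G(F_v)` (`mul_comm_of_disjoint`) and
with `b`, so `(b a)⁻¹ k y = (b a)⁻¹ b c y = a⁻¹ c y = c a⁻¹ y ∈ V`, and
`h (b a) = h (a)` by the left invariance of `h`. Conversely apply this to `k⁻¹`. -/
theorem ker_mul_left (hV : Good S U V) (hv : v ∉ S) (h : Hecke U v) (y : D.Ad) {k : D.Ad}
    (hk : k ∈ V) : ker h V (k * y) = ker h V y := by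
  by_cases H : ∃ a : locSub D v, (a : D.Ad)⁻¹ * y ∈ V
  · obtain ⟨a, ha⟩ := H
    obtain ⟨a', ha', h'⟩ := C5_left_aux hV hv h y hk a ha
    rw [ker_of_mem hV hv h a ha, ker_of_mem hV hv h a' ha', h']
  · have H' : ¬ ∃ a : locSub D v, (a : D.Ad)⁻¹ * (k * y) ∈ V := by
      rintro ⟨a, ha⟩
      obtain ⟨a', ha', -⟩ := C5_left_aux hV hv h (k * y) (V.inv_mem hk) a ha
      rw [inv_mul_cancel_left] at ha'
      exact H ⟨a', ha'⟩
    unfold ker
    rw [dif_neg H, dif_neg H']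

/-- Proof: by `exists_of_ker_ne_zero` the coset of `c.out` is the image of a class `a` in the finite
support of `h.1`. For general `x` translate: `c ↦ x⁻¹ • c` is injective on `G(𝔸_f) / V`, and
`ker h V (x⁻¹ * c.out) = ker h V (x⁻¹ • c).out` by `ker_mul_right`. -/
theorem finite_ker (hV : Good S U V) (hv : v ∉ S) (h : Hecke U v) (x : D.Ad) :
    {c : D.Ad ⧸ V | ker h V (x⁻¹ * c.out) ≠ 0}.Finite := by
  classical
  let emb : (locSub D v ⧸ U.subgroupOf (locSub D v)) → D.Ad ⧸ V := fun a =>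
    QuotientGroup.mk (x * ((Quotient.out a : locSub D v) : D.Ad))
  refine ((h.1.support.finite_toSet).image emb).subset ?_
  intro c hc
  obtain ⟨a, ha, ha'⟩ := exists_of_ker_ne_zero h hc
  refine ⟨QuotientGroup.mk a, ?_, ?_⟩
  · rw [Finset.mem_coe, Finsupp.mem_support_iff]
    exact ha'
  · have h1 : (Quotient.out (QuotientGroup.mk a : locSub D v ⧸ U.subgroupOf (locSub D v)) :
        locSub D v)⁻¹ * a ∈ U.subgroupOf (locSub D v) := by
      rw [← QuotientGroup.eq]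
      exact Quotient.out_eq' _
    rw [Subgroup.mem_subgroupOf, Subgroup.coe_mul, Subgroup.coe_inv] at h1
    have h2 : (QuotientGroup.mk (c.out) : D.Ad ⧸ V) = c := Quotient.out_eq' c
    change (QuotientGroup.mk (x * ((Quotient.out (QuotientGroup.mk a :
      locSub D v ⧸ U.subgroupOf (locSub D v)) : locSub D v) : D.Ad)) : D.Ad ⧸ V) = c
    rw [← h2, QuotientGroup.eq]
    have h3 := V.mul_mem (hV.le h1) ha
    have h4 : ((Quotient.out (QuotientGroup.mk a : locSub D v ⧸ U.subgroupOf (locSub D v)) :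
        locSub D v) : D.Ad)⁻¹ * (a : D.Ad) * ((a : D.Ad)⁻¹ * (x⁻¹ * c.out)) =
        (x * ((Quotient.out (QuotientGroup.mk a : locSub D v ⧸ U.subgroupOf (locSub D v)) :
        locSub D v) : D.Ad))⁻¹ * c.out := by
      group
    rw [← h4]
    exact h3

end Pool.Agent.Lib.MP_666dc0_nt.WL
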