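import Pool.Agent.Lib.MP_666dc0_nt.IG.Kj
import Pool.Agent.Lib.MP_666dc0_nt.IG.Kl
import Pool.Agent.Lib.MP_666dc0_nt.WL.G2
import Pool.Agent.Lib.MP_666dc0_nt.Mg.G049

open NumberField IsDedekindDomain TensorProduct
open scoped NumberField TensorProduct

namespace Pool.Agent.Lib.MP_666dc0_nt.WL

/-!
# WL, G4: transfer of Galois representations along the key inequality
-/

variable {F : Type} [Field F] [NumberField F] {n : ℕ} {D : Datum F n}
  {B : Type} [CommRing B]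

/-- Transfer. Let `lam` be controlled by the family `Fam` of systems of eigenvalues, all of them
`ℓ`-integral and with values in number fields. If every member of `Fam` has an attached
homomorphism then so has `lam`.
Proof: `exists_compact_ring` with `P = MvPolynomial (IX ℓ S U) ℤ`, `Z = Fam` (as a type), `K =
PadicAlgCl ℓ`, `e₀ z = ι ∘ pval ℓ S z`, `y₀ = ι ∘ pval ℓ S lam`; the compact sets from
`exists_compact_values`; `hc` from `hctl` (transport the finite set `I ⊆ Fam` to the subtype: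
`Set.Finite.preimage` of `I` under `Subtype.val`). Put `x' v f = x (X ⟨⟨v, sat v f⟩, hv, hsat v f⟩)` for
`v ∉ S` and `x' v f = 0` for `v ∈ S`. Apply `IG.interpolation_Z` with some faithful `ρ` from
`IG.exists_faithful_Z hA`, `Z`, `R z = PadicAlgCl ℓ`, `e`, `y`: for `v ∉ S` one has
`e z (x' v f) = ι (z v (sat v f))`, so the homomorphism of `hrep z` is attached to `e z (x' v f)`
(only the field `value` has to be rewritten), and the resulting `r` is attached to
`y (x' v f) = ι (lam v (sat v f))` (`v ∉ S`). -/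
theorem exists_attached_of_controlled (ℓ : ℕ) [Fact ℓ.Prime]
    [IsDomain B] [IsPrincipalIdealRing B] [Algebra B ℚ] [IsFractionRing B ℚ]
    [Algebra B (PadicAlgCl ℓ)]
    {O : Type} [CommRing O] [HopfAlgebra B O] [Algebra.FiniteType B O] [Module.Free B O]
    (hO : LinearlyReductive (ℚ ⊗[B] O)) (A : OverB.HopfAction B Gal(AlgebraicClosure F/F) O)
    (hA : IsOpen (A.act.ker : Set Gal(AlgebraicClosure F/F)))
    (S : Finset (HeightOneSpectrum (𝓞 F)))
    (hS : ∀ v, v ∉ S → ∀ P u, IsInertiaAt v P u → A.act u = 1)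
    (φ : HeightOneSpectrum (𝓞 F) → Gal(AlgebraicClosure F/F))
    (hφ : ∀ v, v ∉ S → ∃ P : Ideal (𝓞 (AlgebraicClosure F)), IsOver v P ∧
      (IsFrob v P (φ v) ∨ IsFrob v P (φ v)⁻¹))
    {U : Subgroup D.Ad} (sat : ∀ v, A.inv (φ v) → Hecke U v)
    (hsat : ∀ v f, (sat v f).IsIntegral ℓ) (ι : ℂ ≃+* PadicAlgCl ℓ)
    (Fam : Set (∀ v, Hecke U v → ℂ)) (lam : ∀ v, Hecke U v → ℂ)
    (hctl : Controlled ℓ S ι Fam lam)
    (hE : ∀ m ∈ insert lam Fam, ∃ E : IntermediateField ℚ ℂ, FiniteDimensional ℚ E ∧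
      ∀ v, v ∉ S → ∀ h, m v h ∈ E)
    (hint : ∀ m ∈ insert lam Fam, ∀ x : IX ℓ S U, ‖ι (m x.1.1 x.1.2)‖ ≤ 1)
    (hrep : ∀ m ∈ Fam, ∃ r : Gal(AlgebraicClosure F/F) →* A.LGroup (PadicAlgCl ℓ),
      OverB.IsAttachedTo A S φ (fun v f => ι (m v (sat v f))) r) :
    ∃ r : Gal(AlgebraicClosure F/F) →* A.LGroup (PadicAlgCl ℓ),
      OverB.IsAttachedTo A S φ (fun v f => ι (lam v (sat v f))) r := by
  classical
  obtain ⟨T, i1, i2, i3, x, e, y, he, hy, hex, hyx, hinj⟩ :=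
    exists_compact_ring (P := MvPolynomial (IX ℓ S U) ℤ) (Z := Fam) (K := PadicAlgCl ℓ)
      (fun z => (ι : ℂ →+* PadicAlgCl ℓ).comp (pval ℓ S z.1))
      ((ι : ℂ →+* PadicAlgCl ℓ).comp (pval ℓ S lam))
      (fun z => by
        obtain ⟨E, hEf, hE'⟩ := hE z.1 (Set.mem_insert_of_mem _ z.2)
        exact exists_compact_values ℓ S z.1 ι E hE' (hint z.1 (Set.mem_insert_of_mem _ z.2)))
      (by
        obtain ⟨E, hEf, hE'⟩ := hE lam (Set.mem_insert _ _)
        exact exists_compact_values ℓ S lam ι E hE' (hint lam (Set.mem_insert _ _)))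
      (fun ε hε => by
        obtain ⟨I, hI, hIF, δ, hδ, hP⟩ := hctl ε hε
        refine ⟨Subtype.val ⁻¹' I, hI.preimage Subtype.val_injective.injOn, δ, hδ, fun p hp =>
          hP p fun m hm => ?_⟩
        exact hp ⟨m, hIF hm⟩ hm)
  obtain ⟨N, ρ, hρ⟩ := IG.exists_faithful_Z (A := A) hA
  have hX : ∀ (m : ∀ v, Hecke U v → ℂ) (z : IX ℓ S U), pval ℓ S m (MvPolynomial.X z) =
      m z.1.1 z.1.2 := by
    intro m z
    exact MvPolynomial.aeval_X _ _
  let x' : ∀ v, A.inv (φ v) → T := fun v f =>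
    if hv : v ∉ S then x (MvPolynomial.X ⟨⟨v, sat v f⟩, hv, hsat v f⟩) else 0
  have hx' : ∀ v (hv : v ∉ S) (f : A.inv (φ v)), x' v f =
      x (MvPolynomial.X ⟨⟨v, sat v f⟩, hv, hsat v f⟩) := fun v hv f => by
    simp only [x', dif_pos hv]
  obtain ⟨r, hr, -⟩ := IG.interpolation_Z hO hA hS hφ ρ hρ x' (Z := Fam)
    (R := fun _ => PadicAlgCl ℓ) e he hinj
    (fun z => by
      obtain ⟨r, hr⟩ := hrep z.1 z.2
      refine ⟨r, hr.proj, hr.cont, hr.unram, fun v hv f => ?_⟩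
      rw [hr.value v hv f, hx' v hv f, hex]
      exact (congrArg ι (hX z.1 ⟨⟨v, sat v f⟩, hv, hsat v f⟩)).symm) y hy
  refine ⟨r, hr.proj, hr.cont, hr.unram, fun v hv f => ?_⟩
  rw [hr.value v hv f, hx' v hv f, hyx]
  exact congrArg ι (hX lam ⟨⟨v, sat v f⟩, hv, hsat v f⟩)

end Pool.Agent.Lib.MP_666dc0_nt.WL
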