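import Pool.Agent.Lib.MP_666dc0_nt.InterpZDefs
import Pool.Agent.Lib.MP_666dc0_nt.WL.F0

/-!
# The Buzzard-Gee statement for algebraic automorphic forms
-/

open NumberField IsDedekindDomain TensorProduct
open scoped NumberField TensorProduct

namespace Pool.Agent.Lib.MP_666dc0_nt.WL

variable {F : Type} [Field F] [NumberField F] {n : ℕ} {D : Datum F n}
  {B : Type} [CommRing B]

/-- The Buzzard-Gee statement (number field of definition and Galois representations at `ℓ`) for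
all eigenforms in the set `M`: the Hecke eigenvalues `lam v h` (`v ∉ S`) of every non-zero
eigenform `f ∈ M` are the values of a family `μ` in a number field `E ⊆ ℂ`, and for every
embedding `ι : E → ℚ̄_ℓ` there is a homomorphism `r : Γ_F → ᴸG(ℚ̄_ℓ)` attached to the family
`ι (μ v (sat v f))`. -/
def Q1On (ℓ : ℕ) [Fact ℓ.Prime] [Algebra B (PadicAlgCl ℓ)] {O : Type} [CommRing O]
    [HopfAlgebra B O] (A : OverB.HopfAction B Gal(AlgebraicClosure F/F) O)
    (S : Finset (HeightOneSpectrum (𝓞 F)))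
    (φ : HeightOneSpectrum (𝓞 F) → Gal(AlgebraicClosure F/F)) {U : Subgroup D.Ad}
    (sat : ∀ v, A.inv (φ v) → Hecke U v) (M : Set (D.Ad → D.Cpx → ℂ)) : Prop :=
  ∀ (f : D.Ad → D.Cpx → ℂ) (lam : ∀ v, Hecke U v → ℂ), f ≠ 0 → f ∈ M → IsEigen S f lam →
    ∃ (E : IntermediateField ℚ ℂ) (μ : ∀ v, Hecke U v → E), FiniteDimensional ℚ E ∧
      (∀ v, v ∉ S → ∀ h, (μ v h : ℂ) = lam v h) ∧
      ∀ ι : E →+* PadicAlgCl ℓ, ∃ r : Gal(AlgebraicClosure F/F) →* A.LGroup (PadicAlgCl ℓ),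
        OverB.IsAttachedTo A S φ (fun v f => ι (μ v (sat v f))) r

/-- The Buzzard-Gee statement for all eigenforms with weights in `Q` and of level `V`. -/
def Q1For (ℓ : ℕ) [Fact ℓ.Prime] [Algebra B (PadicAlgCl ℓ)] {O : Type} [CommRing O]
    [HopfAlgebra B O] (A : OverB.HopfAction B Gal(AlgebraicClosure F/F) O)
    (S : Finset (HeightOneSpectrum (𝓞 F)))
    (φ : HeightOneSpectrum (𝓞 F) → Gal(AlgebraicClosure F/F)) (U : Subgroup D.Ad)
    (sat : ∀ v, A.inv (φ v) → Hecke U v) (Q : Submodule ℂ (D.Cpx → ℂ)) (V : Subgroup D.Ad) :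
    Prop :=
  Q1On ℓ A S φ sat {f | IsForm D Q V f}

/-- The Buzzard-Gee statement for all eigenforms with weights in `Q`, tame level `U` and of type
`T` at `ℓ`. -/
def Q1ForType (ℓ : ℕ) [Fact ℓ.Prime] [Algebra B (PadicAlgCl ℓ)] {O : Type} [CommRing O]
    [HopfAlgebra B O] (A : OverB.HopfAction B Gal(AlgebraicClosure F/F) O)
    (S : Finset (HeightOneSpectrum (𝓞 F)))
    (φ : HeightOneSpectrum (𝓞 F) → Gal(AlgebraicClosure F/F)) (U : Subgroup D.Ad)
    (sat : ∀ v, A.inv (φ v) → Hecke U v) (Q : Submodule ℂ (D.Cpx → ℂ)) (T : AdType D) :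
    Prop :=
  Q1On ℓ A S φ sat {f | IsTypeForm D Q U T f}

end Pool.Agent.Lib.MP_666dc0_nt.WL
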