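import Pool.Agent.Lib.MP_666dc0_nt.Mg.G010
import Pool.Agent.Lib.MP_666dc0_nt.WL.G4
import Pool.Agent.Lib.MP_666dc0_nt.Mg.G056
import Pool.Agent.Lib.MP_666dc0_nt.WL.QDefs

open NumberField IsDedekindDomain TensorProduct
open scoped NumberField TensorProduct

namespace Pool.Agent.Lib.MP_666dc0_nt.WL

/-!
# WL, G5: the main theorem from the key inequalities
-/

variable {F : Type} [Field F] [NumberField F] {n : ℕ} {D : Datum F n}
  {B : Type} [CommRing B]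

theorem IsForm.mono {Q Q' : Submodule ℂ (D.Cpx → ℂ)} (h : Q ≤ Q') {V : Subgroup D.Ad}
    {f : D.Ad → D.Cpx → ℂ} (hf : IsForm D Q V f) : IsForm D Q' V f :=
  ⟨fun g => h (hf.mem g), hf.left, hf.right⟩

/-- A form of a type is a form of some level. -/
theorem sysT_subset {U : Subgroup D.Ad} (S : Finset (HeightOneSpectrum (𝓞 F)))
    (Q : Submodule ℂ (D.Cpx → ℂ)) (T : AdType D) :
    SysT (U := U) S Q T ⊆ Sys S Q (U ⊔ T.ker) := by
  rintro lam ⟨f, hf0, hf, he⟩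
  exact ⟨f, hf0, hf.isForm, he⟩

theorem sys_mono {U : Subgroup D.Ad} (S : Finset (HeightOneSpectrum (𝓞 F)))
    {Q Q' : Submodule ℂ (D.Cpx → ℂ)} (h : Q ≤ Q') (V : Subgroup D.Ad) :
    Sys (U := U) S Q V ⊆ Sys S Q' V := by
  rintro lam ⟨f, hf0, hf, he⟩
  exact ⟨f, hf0, hf.mono h, he⟩

theorem span_one_le : (Submodule.span ℂ {1} : Submodule ℂ (D.Cpx → ℂ)) ≤
    Subalgebra.toSubmodule (polyFun D) := by
  rw [Submodule.span_le]
  rintro _ rfl
  exact (polyFun D).one_mem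

theorem Q1For.mono {ℓ : ℕ} [Fact ℓ.Prime] [Algebra B (PadicAlgCl ℓ)] {O : Type} [CommRing O]
    [HopfAlgebra B O] {A : OverB.HopfAction B Gal(AlgebraicClosure F/F) O}
    {S : Finset (HeightOneSpectrum (𝓞 F))}
    {φ : HeightOneSpectrum (𝓞 F) → Gal(AlgebraicClosure F/F)} {U : Subgroup D.Ad}
    {sat : ∀ v, A.inv (φ v) → Hecke U v} {Q Q' : Submodule ℂ (D.Cpx → ℂ)} (hQ : Q ≤ Q')
    {V : Subgroup D.Ad} (h : Q1For ℓ A S φ U sat Q' V) : Q1For ℓ A S φ U sat Q V :=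
  fun f lam hf0 hf he => h f lam hf0 (hf.mono hQ) he

/-- `Q1On` gives a representation for every isomorphism `ℂ ≅ ℚ̄_ℓ`. -/
theorem Q1On.attached {ℓ : ℕ} [Fact ℓ.Prime] [Algebra B (PadicAlgCl ℓ)] {O : Type} [CommRing O]
    [HopfAlgebra B O] {A : OverB.HopfAction B Gal(AlgebraicClosure F/F) O}
    {S : Finset (HeightOneSpectrum (𝓞 F))}
    {φ : HeightOneSpectrum (𝓞 F) → Gal(AlgebraicClosure F/F)} {U : Subgroup D.Ad}
    {sat : ∀ v, A.inv (φ v) → Hecke U v} {M : Set (D.Ad → D.Cpx → ℂ)}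
    (h : Q1On ℓ A S φ sat M) (ι : ℂ ≃+* PadicAlgCl ℓ)
    {m : ∀ v, Hecke U v → ℂ} (hm : ∃ f, f ≠ 0 ∧ f ∈ M ∧ IsEigen S f m) :
    ∃ r : Gal(AlgebraicClosure F/F) →* A.LGroup (PadicAlgCl ℓ),
      OverB.IsAttachedTo A S φ (fun v f => ι (m v (sat v f))) r := by
  obtain ⟨f, hf0, hf, he⟩ := hm
  obtain ⟨E, μ, _, hμ, hr⟩ := h f m hf0 hf he
  obtain ⟨r, hr⟩ := hr ((ι : ℂ →+* PadicAlgCl ℓ).comp (algebraMap E ℂ))
  refine ⟨r, hr.proj, hr.cont, hr.unram, fun v hv x => ?_⟩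
  rw [hr.value v hv x]
  exact congrArg ι (hμ v hv (sat v x))

section main

variable [IsTotallyReal F] (hD : IsTotPosDef D.q) (ℓ : ℕ) [Fact ℓ.Prime]
    [IsDomain B] [IsPrincipalIdealRing B] [Algebra B ℚ] [IsFractionRing B ℚ]
    [Algebra B (PadicAlgCl ℓ)]
    {O : Type} [CommRing O] [HopfAlgebra B O] [Algebra.FiniteType B O] [Module.Free B O]
    (hO : LinearlyReductive (ℚ ⊗[B] O)) (A : OverB.HopfAction B Gal(AlgebraicClosure F/F) O)
    (hA : IsOpen (A.act.ker : Set Gal(AlgebraicClosure F/F)))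
    (S : Finset (HeightOneSpectrum (𝓞 F)))
    (hS : ∀ v, v ∉ S → ∀ P u, IsInertiaAt v P u → A.act u = 1)
    (hSl : ∀ v : HeightOneSpectrum (𝓞 F), (ℓ : 𝓞 F) ∈ v.asIdeal → v ∈ S)
    (φ : HeightOneSpectrum (𝓞 F) → Gal(AlgebraicClosure F/F))
    (hφ : ∀ v, v ∉ S → ∃ P : Ideal (𝓞 (AlgebraicClosure F)), IsOver v P ∧
      (IsFrob v P (φ v) ∨ IsFrob v P (φ v)⁻¹))
    (U : Subgroup D.Ad) (hU : IsTame ℓ U) (hUS : ∀ v, v ∉ S → IsGoodAt U v)
    (sat : ∀ v, A.inv (φ v) → Hecke U v) (hsat : ∀ v f, (sat v f).IsIntegral ℓ)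

include hD hO hA hS hSl hφ hU hUS hsat in
/-- The transfer: if the systems of level `U K` and all weights are controlled by a family of
systems (of polynomial weights and levels `U K'`) for which `Q1` is known then `Q1` follows. -/
theorem q1For_of_controlled (K : Subgroup D.Ad) (hK : IsLevel ℓ U K)
    (Fam : Set (∀ v, Hecke U v → ℂ))
    (hFam : ∀ m ∈ Fam, ∃ K', IsLevel ℓ U K' ∧
      m ∈ Sys S (polySub D) (U ⊔ K'))
    (hctl : ∀ (ι : ℂ ≃+* PadicAlgCl ℓ),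
      ∀ lam ∈ Sys (U := U) S (polySub D) (U ⊔ K),
        Controlled ℓ S ι Fam lam)
    (hrep : ∀ (ι : ℂ ≃+* PadicAlgCl ℓ), ∀ m ∈ Fam,
      ∃ r : Gal(AlgebraicClosure F/F) →* A.LGroup (PadicAlgCl ℓ),
        OverB.IsAttachedTo A S φ (fun v f => ι (m v (sat v f))) r) :
    Q1For ℓ A S φ U sat (polySub D) (U ⊔ K) := by
  classical
  intro f lam hf0 hf he
  have hlam : lam ∈ Sys S (polySub D) (U ⊔ K) := ⟨f, hf0, hf, he⟩
  obtain ⟨E, hEf, hE⟩ := exists_numberField hD S (U ⊔ K) hK.isOpen hlam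
  refine ⟨E, fun v h => if hv : v ∉ S then ⟨lam v h, hE v hv h⟩ else 0, hEf, ?_, ?_⟩
  · intro v hv h
    simp only [dif_pos hv]
  · intro j
    have hcount : Cardinal.mk E ≤ Cardinal.aleph0 := by
      have h1 := Algebra.IsAlgebraic.cardinalMk_le_max ℚ E
      simpa using h1
    obtain ⟨ι, hι⟩ := exists_iso_extending ℓ hcount (algebraMap E ℂ) j
    obtain ⟨r, hr⟩ := exists_attached_of_controlled ℓ hO A hA S hS φ hφ sat hsat ι Fam lam
      (hctl ι lam hlam) (fun m hm => by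
        rcases Set.mem_insert_iff.1 hm with rfl | hm
        · exact ⟨E, hEf, hE⟩
        · obtain ⟨K', hK', hm'⟩ := hFam m hm
          exact exists_numberField hD S (U ⊔ K') hK'.isOpen hm')
      (fun m hm => by
        rcases Set.mem_insert_iff.1 hm with rfl | hm
        · exact fun x => norm_lam_le_one hD ℓ S hSl U hU hUS hK hlam ι x
        · obtain ⟨K', hK', hm'⟩ := hFam m hm
          exact fun x => norm_lam_le_one hD ℓ S hSl U hU hUS hK' hm' ι x)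
      (hrep ι)
    refine ⟨r, hr.proj, hr.cont, hr.unram, fun v hv x => ?_⟩
    rw [hr.value v hv x]
    have h2 := hι ⟨lam v (sat v x), hE v hv _⟩
    simp only [dif_pos hv]
    exact h2

include hD hO hA hS hSl hφ hU hUS hsat in
/-- The main theorem. -/
theorem main_WL :
    ((∀ K, IsLevel ℓ U K → Q1For ℓ A S φ U sat (polySub D) (U ⊔ K)) ↔
      ∀ K, IsLevel ℓ U K → Q1For ℓ A S φ U sat (constSub D) (U ⊔ K)) ∧
    (∀ K₀, IsLevel ℓ U K₀ → ∀ Q, IsDeep ℓ D Q →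
      ((∀ K, IsLevel ℓ U K → Q1For ℓ A S φ U sat (polySub D) (U ⊔ K)) ↔
        Q1For ℓ A S φ U sat Q (U ⊔ K₀))) ∧
    ∀ T, IsOmni ℓ U T →
      ((∀ K, IsLevel ℓ U K → Q1For ℓ A S φ U sat (polySub D) (U ⊔ K)) ↔
        ∀ t ∈ T, Q1ForType ℓ A S φ U sat (constSub D) t) := by
  refine ⟨⟨fun h K hK => (h K hK).mono span_one_le, fun h K hK => ?_⟩,
    fun K₀ hK₀ Q hQ => ⟨fun h => (h K₀ hK₀).mono hQ.le, fun h K hK => ?_⟩,
    fun T hT => ⟨fun h t ht f lam hf0 hf he =>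
      h t.ker (hT.level t ht) f lam hf0 (IsForm.mono span_one_le (IsTypeForm.isForm hf)) he,
      fun h K hK => ?_⟩⟩
  · refine q1For_of_controlled hD ℓ hO A hA S hS hSl φ hφ U hU hUS sat hsat K hK
      (⋃ (K' : Subgroup D.Ad) (_ : IsLevel ℓ U K'), Sys S (constSub D) (U ⊔ K')) ?_
      (fun ι lam hlam => key_zero hD ℓ S hSl U hU hUS hK hlam ι) ?_
    · intro m hm
      simp only [Set.mem_iUnion] at hm
      obtain ⟨K', hK', hm⟩ := hm
      exact ⟨K', hK', sys_mono S span_one_le _ hm⟩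
    · intro ι m hm
      simp only [Set.mem_iUnion] at hm
      obtain ⟨K', hK', hm⟩ := hm
      exact Q1On.attached (h K' hK') ι hm
  · refine q1For_of_controlled hD ℓ hO A hA S hS hSl φ hφ U hU hUS sat hsat K hK
      (Sys S Q (U ⊔ K₀)) (fun m hm => ⟨K₀, hK₀, sys_mono S hQ.le _ hm⟩)
      (fun ι lam hlam => key_deep hD ℓ S hSl U hU hUS hK hlam ι hK₀ hQ)
      (fun ι m hm => Q1On.attached h ι hm)
  · refine q1For_of_controlled hD ℓ hO A hA S hS hSl φ hφ U hU hUS sat hsat K hK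
      (⋃ (t : AdType D) (_ : t ∈ T), SysT S (constSub D) t) ?_
      (fun ι lam hlam => key_type hD ℓ S hSl U hU hUS hK hlam ι hT) ?_
    · intro m hm
      simp only [Set.mem_iUnion] at hm
      obtain ⟨t, ht, hm⟩ := hm
      exact ⟨t.ker, hT.level t ht, sys_mono S span_one_le _ (sysT_subset S _ t hm)⟩
    · intro ι m hm
      simp only [Set.mem_iUnion] at hm
      obtain ⟨t, ht, hm⟩ := hm
      exact Q1On.attached (h t ht) ι hm

end main

end Pool.Agent.Lib.MP_666dc0_nt.WL
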