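import Pool.Agent.Lib.MP_666dc0_nt.Mg.G013

/-!
# WL, K2: polynomials that approximate the indicator function of a ball on a compact set
-/

open Polynomial

namespace Pool.Agent.Lib.MP_666dc0_nt.WL

variable {ℓ : ℕ} [Fact ℓ.Prime]

private theorem K2_max {T : Set (PadicAlgCl ℓ)} (hT : IsCompact T) (f : PadicAlgCl ℓ → ℝ)
    (hf : Continuous f) (h : ∀ x ∈ T, f x < 1) : ∃ c < 1, ∀ x ∈ T, f x ≤ c := by
  rcases T.eq_empty_or_nonempty with h0 | h0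
  · subst h0
    exact ⟨0, one_pos, fun x hx => (Set.notMem_empty x hx).elim⟩
  · obtain ⟨x, hx, hm⟩ := hT.exists_isMaxOn h0 hf.continuousOn
    exact ⟨f x, h x hx, fun y hy => hm hy⟩

private theorem K2_add {x y : PadicAlgCl ℓ} {a : ℝ} (hx : ‖x‖ ≤ a) (hy : ‖y‖ ≤ a) : ‖x + y‖ ≤ a :=
  (IsUltrametricDist.norm_add_le_max x y).trans (max_le hx hy)

private theorem K2_prod (t : Finset (PadicAlgCl ℓ)) (f : PadicAlgCl ℓ → PadicAlgCl ℓ)
    (h : ∀ a ∈ t, ‖f a - 1‖ < 1) : ‖∏ a ∈ t, f a - 1‖ < 1 := by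
  classical
  induction t using Finset.induction_on with
  | empty => simp
  | insert a s ha ih =>
    rw [Finset.prod_insert ha]
    have h1 := h a (Finset.mem_insert_self a s)
    have h2 := ih (fun b hb => h b (Finset.mem_insert_of_mem hb))
    have h3 : f a * ∏ b ∈ s, f b - 1 = (f a - 1) * ∏ b ∈ s, f b + (∏ b ∈ s, f b - 1) := by ring
    have h4 : ‖∏ b ∈ s, f b‖ ≤ 1 := by
      have : ∏ b ∈ s, f b = (∏ b ∈ s, f b - 1) + 1 := by ring
      rw [this]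
      exact K2_add h2.le (by rw [norm_one])
    rw [h3]
    refine (IsUltrametricDist.norm_add_le_max _ _).trans_lt (max_lt ?_ h2)
    rw [norm_mul]
    calc ‖f a - 1‖ * ‖∏ b ∈ s, f b‖ ≤ ‖f a - 1‖ * 1 := by gcongr
      _ < 1 := by rw [mul_one]; exact h1

/-- A polynomial that is close to `1` inside and has norm `< 1` on the sphere of radius `ρ`.
Proof: if `S` has no element of norm `ρ` take `g = 1`. Otherwise cover the compact set
`S ∩ {‖x‖ = ρ}` by finitely many balls `{‖x - a‖ < ρ}`, `a ∈ I`, with centres in `S ∩ {‖x‖ = ρ}`, and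
let `g = ∏_{a ∈ I} (1 - X / a)` (`C (1) - C a⁻¹ * X`). For `‖x‖ ≤ ρ` every factor has norm `≤ 1`, so
`‖g(x)‖ ≤ 1`. For `‖x‖ = ρ`, `x ∈ S` one factor `(a - x)/a` has norm `< 1`; `x ↦ ‖g(x)‖` is continuous on
the compact set, so it is bounded by some `c < 1` (`IsCompact.exists_isMaxOn` if non-empty). For
`‖x‖ < ρ` every factor is in the open unit ball around `1`, so `‖g(x) - 1‖ < 1`; on the compact set
`S ∩ {‖x‖ < ρ}` (closed: the open ball is closed in an ultrametric space,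
`IsUltrametricDist.isClosed_ball`) the maximum is `< 1`. -/
theorem exists_sphere_poly {S : Set (PadicAlgCl ℓ)} (hS : IsCompact S) {ρ : ℝ} (hρ : 0 < ρ) :
    ∃ (g : (PadicAlgCl ℓ)[X]) (c : ℝ), c < 1 ∧ (∀ x ∈ S, ‖x‖ ≤ ρ → ‖g.eval x‖ ≤ 1) ∧
      (∀ x ∈ S, ‖x‖ = ρ → ‖g.eval x‖ ≤ c) ∧ ∀ x ∈ S, ‖x‖ < ρ → ‖g.eval x - 1‖ ≤ c := by
  classical
  have hT : IsCompact (S ∩ {x | ‖x‖ = ρ}) :=
    hS.inter_right (isClosed_eq continuous_norm continuous_const)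
  have hB : IsCompact (S ∩ {x | ‖x‖ < ρ}) := by
    refine hS.inter_right ?_
    have h := IsUltrametricDist.isClosed_ball (0 : PadicAlgCl ℓ) ρ
    have h2 : Metric.ball (0 : PadicAlgCl ℓ) ρ = {x | ‖x‖ < ρ} := by
      ext x
      simp
    rwa [h2] at h
  obtain ⟨t, ht, hcov⟩ := hT.elim_nhds_subcover (fun a => Metric.ball a ρ)
    (fun a _ => Metric.ball_mem_nhds a hρ)
  obtain ⟨g, hg⟩ : ∃ g : (PadicAlgCl ℓ)[X], g = ∏ a ∈ t, (1 - C a⁻¹ * X) := ⟨_, rfl⟩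
  have hev : ∀ x, g.eval x = ∏ a ∈ t, (1 - a⁻¹ * x) := by
    intro x
    rw [hg, Polynomial.eval_prod]
    simp
  have hta : ∀ a ∈ t, ‖a‖ = ρ := fun a ha => (ht a ha).2
  have hfac : ∀ a ∈ t, ∀ x, ‖a⁻¹ * x‖ = ρ⁻¹ * ‖x‖ := by
    intro a ha x
    rw [norm_mul, norm_inv, hta a ha]
  have hle : ∀ a ∈ t, ∀ x, ‖x‖ ≤ ρ → ‖1 - a⁻¹ * x‖ ≤ 1 := by
    intro a ha x hx
    rw [sub_eq_add_neg]
    refine K2_add (by rw [norm_one]) ?_
    rw [norm_neg, hfac a ha, inv_mul_le_iff₀ hρ, mul_one]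
    exact hx
  have h1 : ∀ x, ‖x‖ ≤ ρ → ‖g.eval x‖ ≤ 1 := by
    intro x hx
    rw [hev, norm_prod]
    exact Finset.prod_le_one (fun _ _ => norm_nonneg _) (fun a ha => hle a ha x hx)
  have h2 : ∀ x ∈ S ∩ {x | ‖x‖ = ρ}, ‖g.eval x‖ < 1 := by
    intro x hx
    have hxρ : ‖x‖ = ρ := hx.2
    obtain ⟨a, ha, hax⟩ := Set.mem_iUnion₂.1 (hcov hx)
    rw [hev, norm_prod, ← Finset.mul_prod_erase t _ ha]
    have h3 : ‖1 - a⁻¹ * x‖ < 1 := by
      have ha0 : a ≠ 0 := by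
        intro h0
        have := hta a ha
        rw [h0, norm_zero] at this
        linarith
      have h4 : 1 - a⁻¹ * x = a⁻¹ * (a - x) := by
        rw [mul_sub, inv_mul_cancel₀ ha0]
      rw [h4, hfac a ha, inv_mul_lt_iff₀ hρ, mul_one, norm_sub_rev, ← dist_eq_norm]
      exact hax
    have h5 : ∏ b ∈ t.erase a, ‖1 - b⁻¹ * x‖ ≤ 1 :=
      Finset.prod_le_one (fun _ _ => norm_nonneg _)
        (fun b hb => hle b (Finset.mem_of_mem_erase hb) x hxρ.le)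
    calc ‖1 - a⁻¹ * x‖ * ∏ b ∈ t.erase a, ‖1 - b⁻¹ * x‖ ≤ ‖1 - a⁻¹ * x‖ * 1 := by gcongr
      _ < 1 := by rw [mul_one]; exact h3
  have h3 : ∀ x ∈ S ∩ {x | ‖x‖ < ρ}, ‖g.eval x - 1‖ < 1 := by
    intro x hx
    have hxρ : ‖x‖ < ρ := hx.2
    rw [hev]
    apply K2_prod
    intro a ha
    have h4 : 1 - a⁻¹ * x - 1 = -(a⁻¹ * x) := by ring
    rw [h4, norm_neg, hfac a ha, inv_mul_lt_iff₀ hρ, mul_one]
    exact hxρ
  obtain ⟨c1, hc1, hm1⟩ := K2_max hT (fun x => ‖g.eval x‖) g.continuous.norm h2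
  obtain ⟨c2, hc2, hm2⟩ := K2_max hB (fun x => ‖g.eval x - 1‖) (g.continuous.sub continuous_const).norm h3
  exact ⟨g, max c1 c2, max_lt hc1 hc2, fun x _ hx => h1 x hx,
    fun x hx hxρ => (hm1 x ⟨hx, hxρ⟩).trans (le_max_left _ _),
    fun x hx hxρ => (hm2 x ⟨hx, hxρ⟩).trans (le_max_right _ _)⟩

/-- Proof: `Finset.induction_on_max` on `R` (all elements `≥ r`), for all `η` at once. `R = ∅`: `p = 1`.
Step `R ∪ {ρ}`, `ρ` larger than all elements of `R`: let `p` be the polynomial for `R` and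
`min η 1`, `M ≥ 1` a bound of `‖p(x)‖` on `S` (compact) and `g`, `c` from `exists_sphere_poly`. Take
`p * g ^ (ℓ ^ s)` with `s` so large that `‖g(x) ^ (ℓ ^ s) - 1‖ ≤ min η 1` for `‖x‖ < ρ`
(`exists_pow_close`) and `‖g(x) ^ (ℓ ^ s)‖ ≤ η / M` for `‖x‖ = ρ` (`exists_pow_small`). For `‖x‖ < r`
(so `‖x‖ < ρ`): `p g' - 1 = p (g' - 1) + (p - 1)` with `‖p‖ ≤ 1`. For `‖x‖ ∈ R`: `‖p‖ ≤ η`,
`‖g'‖ ≤ 1`. For `‖x‖ = ρ`: `‖p g'‖ ≤ M η / M`. -/
theorem exists_poly_finset {S : Set (PadicAlgCl ℓ)} (hS : IsCompact S) {r : ℝ} (hr : 0 < r)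
    (R : Finset ℝ) (hR : ∀ ρ ∈ R, r ≤ ρ) (η : ℝ) (hη : 0 < η) :
    ∃ p : (PadicAlgCl ℓ)[X], (∀ x ∈ S, ‖x‖ < r → ‖p.eval x - 1‖ ≤ η) ∧
      ∀ x ∈ S, ‖x‖ ∈ R → ‖p.eval x‖ ≤ η := by
  classical
  induction R using Finset.induction_on_max generalizing η with
  | empty =>
    refine ⟨1, ?_, ?_⟩
    · intro x _ _
      simp [hη.le]
    · intro x _ hx
      exact (Finset.notMem_empty _ hx).elim
  | insert a s has ih =>
    have ha : r ≤ a := hR a (Finset.mem_insert_self a s)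
    have ha0 : 0 < a := hr.trans_le ha
    obtain ⟨η', hη'⟩ : ∃ η', η' = min η 1 := ⟨_, rfl⟩
    have hη0 : 0 < η' := by rw [hη']; exact lt_min hη one_pos
    have hη1 : η' ≤ η := by rw [hη']; exact min_le_left _ _
    have hη2 : η' ≤ 1 := by rw [hη']; exact min_le_right _ _
    obtain ⟨p, hp1, hp2⟩ := ih (fun ρ hρ => hR ρ (Finset.mem_insert_of_mem hρ)) η' hη0
    obtain ⟨M0, hM0⟩ := hS.exists_bound_of_continuousOn p.continuous.continuousOn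
    obtain ⟨M, hM⟩ : ∃ M, M = max M0 1 := ⟨_, rfl⟩
    have hM1 : 1 ≤ M := by rw [hM]; exact le_max_right _ _
    have hM2 : ∀ x ∈ S, ‖p.eval x‖ ≤ M := fun x hx => (hM0 x hx).trans (by rw [hM]; exact le_max_left _ _)
    have hMpos : 0 < M := one_pos.trans_le hM1
    obtain ⟨g, c, hc, hg1, hg2, hg3⟩ := exists_sphere_poly hS ha0
    obtain ⟨s₁, hs₁⟩ := exists_pow_close (ℓ := ℓ) hc hη0
    obtain ⟨s₂, hs₂⟩ := exists_pow_small (ℓ := ℓ) hc (div_pos hη hMpos)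
    refine ⟨p * g ^ (ℓ ^ (max s₁ s₂)), ?_, ?_⟩
    · intro x hx hxr
      rw [eval_mul, eval_pow]
      have e1 : p.eval x * g.eval x ^ (ℓ ^ (max s₁ s₂)) - 1 =
          p.eval x * (g.eval x ^ (ℓ ^ (max s₁ s₂)) - 1) + (p.eval x - 1) := by ring
      have e2 := hp1 x hx hxr
      have e3 := hs₁ (max s₁ s₂) (le_max_left _ _) (g.eval x) (hg3 x hx (hxr.trans_le ha))
      have e4 : ‖p.eval x‖ ≤ 1 := by
        have : p.eval x = (p.eval x - 1) + 1 := by ring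
        rw [this]
        exact K2_add (e2.trans hη2) (by rw [norm_one])
      rw [e1]
      refine K2_add ?_ (e2.trans hη1)
      rw [norm_mul]
      calc ‖p.eval x‖ * ‖g.eval x ^ (ℓ ^ (max s₁ s₂)) - 1‖ ≤ 1 * η' := by gcongr
        _ ≤ η := by rw [one_mul]; exact hη1
    · intro x hx hxR
      rw [eval_mul, eval_pow, norm_mul]
      rcases Finset.mem_insert.1 hxR with h | h
      · have e3 := hs₂ (max s₁ s₂) (le_max_right _ _) (g.eval x) (hg2 x hx h)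
        calc ‖p.eval x‖ * ‖g.eval x ^ (ℓ ^ (max s₁ s₂))‖ ≤ M * (η / M) := by
              gcongr
              exact hM2 x hx
          _ = η := mul_div_cancel₀ _ hMpos.ne'
      · have e3 : ‖g.eval x ^ (ℓ ^ (max s₁ s₂))‖ ≤ 1 := by
          rw [norm_pow]
          exact pow_le_one₀ (norm_nonneg _) (hg1 x hx (has _ h).le)
        calc ‖p.eval x‖ * ‖g.eval x ^ (ℓ ^ (max s₁ s₂))‖ ≤ η' * 1 := by
              gcongr
              exact hp2 x hx h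
          _ ≤ η := by rw [mul_one]; exact hη1

/-- Proof: `exists_poly_finset` for the finite set of radii of `finite_radii`. -/
theorem exists_poly_ball {S : Set (PadicAlgCl ℓ)} (hS : IsCompact S) {r : ℝ} (hr : 0 < r)
    {η : ℝ} (hη : 0 < η) :
    ∃ p : (PadicAlgCl ℓ)[X], (∀ x ∈ S, ‖x‖ < r → ‖p.eval x - 1‖ ≤ η) ∧
      ∀ x ∈ S, r ≤ ‖x‖ → ‖p.eval x‖ ≤ η := by
  have hfin := finite_radii hS hr
  obtain ⟨p, hp1, hp2⟩ := exists_poly_finset hS hr hfin.toFinset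
    (fun ρ hρ => (hfin.mem_toFinset.1 hρ).1) η hη
  exact ⟨p, hp1, fun x hx hxr => hp2 x hx (hfin.mem_toFinset.2 ⟨hxr, x, hx, rfl⟩)⟩

end Pool.Agent.Lib.MP_666dc0_nt.WL
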